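import Mathlib

open Filter Topology Set

namespace Pool.Agent.H.MP_701b78_al

/-- one-sided affine at every point -/
def PLp (f : ℝ → ℝ) : Prop :=
  ∀ x, (∃ a, ∀ᶠ t in 𝓝[≥] x, f t = f x + a * (t - x)) ∧
    (∃ a, ∀ᶠ t in 𝓝[≤] x, f t = f x + a * (t - x))

theorem tendR (f : ℝ ≃o ℝ) (x : ℝ) : Tendsto f (𝓝[≥] x) (𝓝[≥] (f x)) := by
  apply tendsto_nhdsWithin_of_tendsto_nhds_of_eventually_within
  · exact (f.continuous.tendsto x).mono_left nhdsWithin_le_nhds
  · filter_upwards [self_mem_nhdsWithin] with t ht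
    exact f.monotone ht

theorem tendL (f : ℝ ≃o ℝ) (x : ℝ) : Tendsto f (𝓝[≤] x) (𝓝[≤] (f x)) := by
  apply tendsto_nhdsWithin_of_tendsto_nhds_of_eventually_within
  · exact (f.continuous.tendsto x).mono_left nhdsWithin_le_nhds
  · filter_upwards [self_mem_nhdsWithin] with t ht
    exact f.monotone ht

theorem inv_aux (f : ℝ ≃o ℝ) (y a : ℝ) (F F' : Filter ℝ) (hF : Tendsto f.symm F' F)
    (h : ∀ᶠ t in F, f t = f (f.symm y) + a * (t - f.symm y)) :
    ∀ᶠ t in F', f.symm t = f.symm y + a⁻¹ * (t - y) := by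
  filter_upwards [hF.eventually h] with t ht
  simp only [OrderIso.apply_symm_apply] at ht
  by_cases ha : a = 0
  · subst ha
    have : t = y := by linarith
    subst this; simp
  · have : t - y = a * (f.symm t - f.symm y) := by linarith
    rw [this]; field_simp; ring

def PLG : Subgroup (ℝ ≃o ℝ) where
  carrier := {f | PLp f}
  one_mem' := by
    intro x
    exact ⟨⟨1, Eventually.of_forall fun t => by simp⟩, ⟨1, Eventually.of_forall fun t => by simp⟩⟩
  mul_mem' := by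
    intro f g hf hg x
    obtain ⟨⟨a, ha⟩, ⟨b, hb⟩⟩ := hg x
    obtain ⟨⟨a', ha'⟩, ⟨b', hb'⟩⟩ := hf (g x)
    refine ⟨⟨a' * a, ?_⟩, ⟨b' * b, ?_⟩⟩
    · filter_upwards [ha, (tendR g x).eventually ha'] with t h1 h2
      simp only [RelIso.mul_apply]
      rw [h2, h1]; ring
    · filter_upwards [hb, (tendL g x).eventually hb'] with t h1 h2
      simp only [RelIso.mul_apply]
      rw [h2, h1]; ring
  inv_mem' := by
    intro f hf y
    obtain ⟨⟨a, ha⟩, ⟨b, hb⟩⟩ := hf (f.symm y)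
    exact ⟨⟨a⁻¹, inv_aux f y a _ _ (tendR f.symm y) ha⟩,
      ⟨b⁻¹, inv_aux f y b _ _ (tendL f.symm y) hb⟩⟩

abbrev G : Type := ↥PLG

def ap (g : G) : ℝ → ℝ := fun t => g.1 t

instance : CoeFun G (fun _ => ℝ → ℝ) := ⟨ap⟩

@[simp] theorem mul_ap (f g : G) (t : ℝ) : (f * g) t = f (g t) := rfl
@[simp] theorem one_ap (t : ℝ) : (1 : G) t = t := rfl
@[simp] theorem inv_ap (f : G) (t : ℝ) : f⁻¹ (f t) = t := f.1.symm_apply_apply t
@[simp] theorem ap_inv (f : G) (t : ℝ) : f (f⁻¹ t) = t := f.1.apply_symm_apply t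
@[simp] theorem ap_le {f : G} {s t : ℝ} : f s ≤ f t ↔ s ≤ t := f.1.le_iff_le
@[simp] theorem ap_lt {f : G} {s t : ℝ} : f s < f t ↔ s < t := f.1.lt_iff_lt
theorem mono (f : G) {s t : ℝ} (h : s ≤ t) : f s ≤ f t := ap_le.2 h
theorem smono (f : G) {s t : ℝ} (h : s < t) : f s < f t := ap_lt.2 h
theorem ext {f g : G} (h : ∀ t, f t = g t) : f = g := Subtype.ext (OrderIso.ext (funext h))
theorem inv_eq {f : G} {s t : ℝ} (h : f s = t) : f⁻¹ t = s := by rw [← h, inv_ap]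
theorem inv_le {f : G} {s t : ℝ} : f⁻¹ t ≤ s ↔ t ≤ f s := by
  rw [← ap_le (f := f), ap_inv]
theorem le_inv {f : G} {s t : ℝ} : s ≤ f⁻¹ t ↔ f s ≤ t := by
  rw [← ap_le (f := f), ap_inv]
theorem inv_lt {f : G} {s t : ℝ} : f⁻¹ t < s ↔ t < f s := by
  rw [← ap_lt (f := f), ap_inv]
theorem lt_inv {f : G} {s t : ℝ} : s < f⁻¹ t ↔ f s < t := by
  rw [← ap_lt (f := f), ap_inv]
theorem plp (g : G) : PLp g := g.2

theorem mk_G (F : ℝ → ℝ) (h1 : StrictMono F) (h2 : Function.Surjective F) (h3 : PLp F) :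
    ∃ g : G, ∀ t, g t = F t :=
  ⟨⟨h1.orderIsoOfSurjective F h2, h3⟩, fun _ => rfl⟩

theorem exists_aff (a b : ℝ) (ha : 0 < a) : ∃ g : G, ∀ t, g t = a * t + b := by
  apply mk_G
  · intro s t h; simp only; nlinarith
  · intro y; exact ⟨(y - b) / a, by field_simp; ring⟩
  · intro x
    exact ⟨⟨a, Eventually.of_forall fun t => by ring⟩, ⟨a, Eventually.of_forall fun t => by ring⟩⟩

theorem exists_interp {x x' y y' : ℝ} (hx : x < x') (hy : y < y') :
    ∃ g : G, ∃ a, 0 < a ∧ (∀ t, g t = y + a * (t - x)) ∧ g x = y ∧ g x' = y' := by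
  have h : 0 < (y' - y) / (x' - x) := div_pos (by linarith) (by linarith)
  obtain ⟨g, hg⟩ := exists_aff _ (y - (y' - y) / (x' - x) * x) h
  refine ⟨g, _, h, fun t => by rw [hg]; ring, by rw [hg]; ring, ?_⟩
  rw [hg]
  have : x' - x ≠ 0 := by linarith
  field_simp; ring

noncomputable def tr (c : ℝ) : G := (exists_aff 1 c one_pos).choose
@[simp] theorem tr_ap (c t : ℝ) : tr c t = t + c := by
  rw [tr, (exists_aff 1 c one_pos).choose_spec]; ring
@[simp] theorem tr_inv_ap (c t : ℝ) : (tr c)⁻¹ t = t - c := inv_eq (by simp)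

theorem glue (g h : G) (p : ℝ) (hp : g p = h p) :
    ∃ k : G, (∀ t, t ≤ p → k t = g t) ∧ ∀ t, p ≤ t → k t = h t := by
  classical
  let F : ℝ → ℝ := fun t => if t ≤ p then g t else h t
  have F1 : ∀ t, t ≤ p → F t = g t := fun t ht => if_pos ht
  have F2 : ∀ t, p ≤ t → F t = h t := fun t ht => by
    rcases ht.eq_or_lt with rfl | ht
    · rw [F1 _ le_rfl, hp]
    · exact if_neg (not_le.2 ht)
  obtain ⟨k, hk⟩ := mk_G F (by
    intro s t hst
    rcases le_total t p with h1 | h1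
    · rw [F1 _ h1, F1 _ (by linarith)]; exact smono g hst
    rcases lt_or_ge s p with h2 | h2
    · rw [F1 _ h2.le, F2 _ h1]
      have := smono g h2
      have := mono h h1
      linarith
    · rw [F2 _ h2, F2 _ h1]; exact smono h hst) (by
    intro y
    rcases le_total y (g p) with h1 | h1
    · exact ⟨g⁻¹ y, by rw [F1 _ (inv_le.2 h1), ap_inv]⟩
    · exact ⟨h⁻¹ y, by rw [F2 _ (le_inv.2 (hp ▸ h1)), ap_inv]⟩) (by
    intro x
    constructor
    · rcases lt_or_ge x p with h1 | h1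
      · obtain ⟨a, ha⟩ := (plp g x).1
        refine ⟨a, ?_⟩
        filter_upwards [ha, mem_nhdsWithin_of_mem_nhds (Iio_mem_nhds h1)] with t h2 h3
        rw [F1 _ (le_of_lt h3), F1 _ h1.le, h2]
      · obtain ⟨a, ha⟩ := (plp h x).1
        refine ⟨a, ?_⟩
        filter_upwards [ha, self_mem_nhdsWithin] with t h2 h3
        rw [F2 _ (le_trans h1 h3), F2 _ h1, h2]
    · rcases lt_or_ge p x with h1 | h1
      · obtain ⟨a, ha⟩ := (plp h x).2
        refine ⟨a, ?_⟩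
        filter_upwards [ha, mem_nhdsWithin_of_mem_nhds (Ioi_mem_nhds h1)] with t h2 h3
        rw [F2 _ (le_of_lt h3), F2 _ h1.le, h2]
      · obtain ⟨a, ha⟩ := (plp g x).2
        refine ⟨a, ?_⟩
        filter_upwards [ha, self_mem_nhdsWithin] with t h2 h3
        rw [F1 _ (le_trans h3 h1), F1 _ h1, h2])
  exact ⟨k, fun t ht => by rw [hk, F1 _ ht], fun t ht => by rw [hk, F2 _ ht]⟩

/-- unbounded in both directions -/
def Unb (c : ℤ → ℝ) : Prop := ∀ x, (∃ i, x < c i) ∧ ∃ i, c i < x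

theorem idxR {c : ℤ → ℝ} (hc : StrictMono c) (hu : Unb c) (x : ℝ) :
    ∃ i, c i ≤ x ∧ x < c (i + 1) := by
  classical
  obtain ⟨⟨i1, h1⟩, ⟨i0, h0⟩⟩ := hu x
  obtain ⟨i, hi, hm⟩ := Int.exists_greatest_of_bdd (P := fun i => c i ≤ x)
    ⟨i1, fun z hz => (hc.lt_iff_lt.1 (lt_of_le_of_lt hz h1)).le⟩ ⟨i0, h0.le⟩
  refine ⟨i, hi, ?_⟩
  by_contra h
  have := hm (i + 1) (not_lt.1 h)
  omega

theorem idxL {c : ℤ → ℝ} (hc : StrictMono c) (hu : Unb c) (x : ℝ) :
    ∃ i, c i < x ∧ x ≤ c (i + 1) := by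
  obtain ⟨i, h1, h2⟩ := idxR hc hu x
  rcases h1.eq_or_lt with h | h
  · refine ⟨i - 1, ?_, by simp [h]⟩
    rw [← h]; exact hc (by omega)
  · exact ⟨i, h, h2.le⟩

theorem zglue (c : ℤ → ℝ) (g : ℤ → G) (hc : StrictMono c) (hu : Unb c)
    (hg : ∀ i, g i (c (i + 1)) = g (i + 1) (c (i + 1))) (hd : Unb fun i => g i (c i)) :
    ∃ k : G, ∀ i t, c i ≤ t → t ≤ c (i + 1) → k t = g i t := by
  choose idx h1 h2 using idxR hc hu
  let F : ℝ → ℝ := fun t => g (idx t) t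
  have hidx : ∀ i t, c i ≤ t → t < c (i + 1) → idx t = i := by
    intro i t a b
    have e1 := hc.lt_iff_lt.1 (lt_of_le_of_lt a (h2 t))
    have e2 := hc.lt_iff_lt.1 (lt_of_le_of_lt (h1 t) b)
    omega
  have hF : ∀ i t, c i ≤ t → t ≤ c (i + 1) → F t = g i t := by
    intro i t a b
    rcases b.eq_or_lt with rfl | b
    · simp only [F]
      rw [hidx (i + 1) _ le_rfl (hc (by omega)), hg]
    · simp only [F]; rw [hidx i t a b]
  have hds : StrictMono fun i => g i (c i) := by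
    apply strictMono_int_of_lt_succ
    intro i
    rw [← hg]; exact smono _ (hc (by omega))
  obtain ⟨k, hk⟩ := mk_G F (by
    intro s t hst
    rcases lt_or_ge t (c (idx s + 1)) with h | h
    · rw [hF (idx s) s (h1 s) (h2 s).le, hF (idx s) t (by linarith [h1 s]) h.le]
      exact smono _ hst
    · have e1 : idx s + 1 ≤ idx t := by
        have := hc.lt_iff_lt.1 (lt_of_le_of_lt h (h2 t))
        omega
      have e2 := hds.monotone e1
      have e3 := smono (g (idx s)) (h2 s)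
      have e4 := mono (g (idx t)) (h1 t)
      rw [hg] at e3
      simp only [F] at e2 ⊢
      linarith) (by
    intro y
    obtain ⟨i, a, b⟩ := idxR hds hd y
    rw [← hg] at b
    exact ⟨(g i)⁻¹ y, by rw [hF i _ (le_inv.2 a) (inv_le.2 b.le), ap_inv]⟩) (by
    intro x
    constructor
    · obtain ⟨i, a, b⟩ := idxR hc hu x
      obtain ⟨s, hs⟩ := (plp (g i) x).1
      refine ⟨s, ?_⟩
      filter_upwards [hs, self_mem_nhdsWithin, mem_nhdsWithin_of_mem_nhds (Iio_mem_nhds b)]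
        with t e1 e2 e3
      rw [hF i t (le_trans a e2) (le_of_lt e3), hF i x a b.le, e1]
    · obtain ⟨i, a, b⟩ := idxL hc hu x
      obtain ⟨s, hs⟩ := (plp (g i) x).2
      refine ⟨s, ?_⟩
      filter_upwards [hs, self_mem_nhdsWithin, mem_nhdsWithin_of_mem_nhds (Ioi_mem_nhds a)]
        with t e1 e2 e3
      rw [hF i t (le_of_lt e3) (le_trans e2 b), hF i x a.le b, e1])
  exact ⟨k, fun i t a b => by rw [hk, hF i t a b]⟩

theorem lin_mono (a b : ℝ) (ha : 0 < a) : StrictMono fun i : ℤ => a * i + b := by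
  intro i j h
  have : (i : ℝ) < j := by exact_mod_cast h
  simp only; nlinarith

theorem lin_unb (a b : ℝ) (ha : 0 < a) : Unb fun i : ℤ => a * i + b := by
  intro x
  obtain ⟨n, hn⟩ := exists_int_gt ((x - b) / a)
  obtain ⟨m, hm⟩ := exists_int_lt ((x - b) / a)
  rw [div_lt_iff₀ ha] at hn
  rw [lt_div_iff₀ ha] at hm
  exact ⟨⟨n, by simp only; linarith⟩, ⟨m, by simp only; linarith⟩⟩

/-- supported in the interval (a,b) -/
def Supp (a b : ℝ) (g : G) : Prop := ∀ t, t ≤ a ∨ b ≤ t → g t = t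

theorem Supp.one (a b : ℝ) : Supp a b 1 := fun _ _ => rfl
theorem Supp.mul {a b : ℝ} {g h : G} (hg : Supp a b g) (hh : Supp a b h) : Supp a b (g * h) :=
  fun t ht => by rw [mul_ap, hh t ht, hg t ht]
theorem Supp.inv {a b : ℝ} {g : G} (hg : Supp a b g) : Supp a b g⁻¹ :=
  fun t ht => inv_eq (hg t ht)
theorem Supp.mono {a b a' b' : ℝ} {g : G} (hg : Supp a b g) (h1 : a' ≤ a) (h2 : b ≤ b') :
    Supp a' b' g := fun t ht => hg t (by rcases ht with h | h; left; linarith; right; linarith)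
theorem Supp.conj {a b : ℝ} {g : G} (hg : Supp a b g) (s : G) :
    Supp (s a) (s b) (s * g * s⁻¹) := fun t ht => by
  simp only [mul_ap]
  rw [hg _ (by rcases ht with h | h; exact Or.inl (inv_le.2 h); exact Or.inr (le_inv.2 h)), ap_inv]

theorem comm_of {p : ℝ} {g h : G} (hg : ∀ t, p ≤ t → g t = t) (hh : ∀ t, t ≤ p → h t = t) :
    g * h = h * g := by
  apply ext
  intro t
  simp only [mul_ap]
  rcases le_total t p with h1 | h1
  · have := mono g h1
    rw [hg p le_rfl] at this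
    rw [hh t h1, hh _ this]
  · have := mono h h1
    rw [hh p le_rfl] at this
    rw [hg t h1, hg _ this]

theorem Supp.comm {a b c d : ℝ} {g h : G} (hg : Supp a b g) (hh : Supp c d h) (hbc : b ≤ c) :
    g * h = h * g :=
  comm_of (p := b) (fun t ht => hg t (Or.inr ht)) (fun t ht => hh t (Or.inl (by linarith)))

theorem cut (g : G) {x y : ℝ} (hxy : x ≤ y) (hx : g x = x) (hy : g y = y) :
    ∃ k : G, Supp x y k ∧ ∀ t, x ≤ t → t ≤ y → k t = g t := by
  obtain ⟨k1, a1, a2⟩ := glue g 1 y (by simp [hy])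
  obtain ⟨k, b1, b2⟩ := glue 1 k1 x (by simp [a1 x hxy, hx])
  refine ⟨k, ?_, fun t h1 h2 => by rw [b2 t h1, a1 t h2]⟩
  rintro t (h | h)
  · simp [b1 t h]
  · rw [b2 t (by linarith), a2 t h, one_ap]

theorem agree (g : G) {x y a b : ℝ} (hab : a ≤ b) (h1 : x < a) (h2 : b < y) (h3 : x < g a)
    (h4 : g b < y) : ∃ k : G, Supp x y k ∧ ∀ t, a ≤ t → t ≤ b → k t = g t := by
  obtain ⟨l, -, -, -, l1, l2⟩ := exists_interp h1 h3
  obtain ⟨r, -, -, -, r1, r2⟩ := exists_interp h2 h4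
  obtain ⟨k1, a1, a2⟩ := glue g r b r1.symm
  obtain ⟨k2, b1, b2⟩ := glue l k1 a (by rw [l2, a1 a hab])
  obtain ⟨k, c1, c2⟩ := cut k2 (x := x) (y := y) (by linarith) (by rw [b1 x h1.le, l1])
    (by rw [b2 y (by linarith), a2 y h2.le, r2])
  exact ⟨k, c1, fun t e1 e2 => by rw [c2 t (by linarith) (by linarith), b2 t e1, a1 t e2]⟩

/-- affine on [x,y] -/
def AffOn (g : G) (x y : ℝ) : Prop := ∃ s, ∀ t, x ≤ t → t ≤ y → g t = g x + s * (t - x)

theorem affR (g : G) (x : ℝ) : ∃ y, x < y ∧ AffOn g x y := by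
  obtain ⟨s, hs⟩ := (plp g x).1
  obtain ⟨y, h1, h2⟩ := mem_nhdsGE_iff_exists_Icc_subset.1 hs
  exact ⟨y, h1, s, fun t a b => h2 ⟨a, b⟩⟩

theorem affL (g : G) (x : ℝ) : ∃ y, y < x ∧ ∀ z, y ≤ z → z ≤ x → AffOn g z x := by
  obtain ⟨s, hs⟩ := (plp g x).2
  obtain ⟨y, h1, h2⟩ := mem_nhdsLE_iff_exists_Icc_subset.1 hs
  refine ⟨y, h1, fun z a b => ⟨s, fun t c d => ?_⟩⟩
  have e1 : g t = g x + s * (t - x) := h2 ⟨by linarith, d⟩
  have e2 : g z = g x + s * (z - x) := h2 ⟨a, b⟩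
  rw [e1, e2]; ring

theorem plInd (g : G) (P : ℝ → Prop) {a b : ℝ} (hab : a ≤ b) (h0 : P a)
    (hs : ∀ x y, x ≤ y → AffOn g x y → P x → P y) : P b := by
  let S := {x | a ≤ x ∧ x ≤ b ∧ P x}
  have hne : S.Nonempty := ⟨a, le_rfl, hab, h0⟩
  have hbd : BddAbove S := ⟨b, fun x hx => hx.2.1⟩
  have h1 : P (sSup S) := by
    obtain ⟨y, hy, hz⟩ := affL g (sSup S)
    obtain ⟨z, hzS, hyz⟩ := exists_lt_of_lt_csSup hne hy
    exact hs z _ (le_csSup hbd hzS) (hz z hyz.le (le_csSup hbd hzS)) hzS.2.2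
  have h2 : sSup S ≤ b := csSup_le hne fun x hx => hx.2.1
  have h3 : a ≤ sSup S := le_csSup hbd ⟨le_rfl, hab, h0⟩
  rcases h2.eq_or_lt with h | h
  · rwa [← h]
  · exfalso
    obtain ⟨y, hy, s, hz⟩ := affR g (sSup S)
    have h4 : sSup S < min y b := lt_min hy h
    have : min y b ∈ S := ⟨by linarith, min_le_right _ _, hs _ _ h4.le
      ⟨s, fun t c d => hz t c (le_trans d (min_le_left _ _))⟩ h1⟩
    have := le_csSup hbd this
    linarith

end Pool.Agent.H.MP_701b78_al
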