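import Pool.Agent.H.MP_701b78_al.B

open Filter Topology Set
open scoped commutatorElement

namespace Pool.Agent.H.MP_701b78_al

def Per (e : ℝ) (a : G) : Prop := (∀ t, a (t + 1) = a t + 1) ∧ a e = e

theorem Per.mul {e : ℝ} {a b : G} (ha : Per e a) (hb : Per e b) : Per e (a * b) :=
  ⟨fun t => by simp [ha.1, hb.1], by simp [ha.2, hb.2]⟩
theorem Per.inv {e : ℝ} {a : G} (ha : Per e a) : Per e a⁻¹ :=
  ⟨fun t => inv_eq (by rw [ha.1, ap_inv]), inv_eq ha.2⟩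
theorem Per.commutator {e : ℝ} {a b : G} (ha : Per e a) (hb : Per e b) : Per e ⁅a, b⁆ := by
  rw [commutatorElement_def]; exact ((ha.mul hb).mul ha.inv).mul hb.inv
theorem Per.int {e : ℝ} {a : G} (ha : Per e a) (n : ℤ) (t : ℝ) : a (t + n) = a t + n := by
  induction n using Int.induction_on with
  | zero => simp
  | succ n ih => push_cast at ih ⊢; rw [← add_assoc, ha.1, ih]; ring
  | pred n ih =>
    push_cast at ih ⊢
    have := ha.1 (t + (-n - 1))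
    rw [show t + (-(n : ℝ) - 1) + 1 = t + -n by ring, ih] at this
    linarith
theorem Per.move {e e' : ℝ} {a : G} (ha : Per e a) (n : ℤ) (h : e' = e + n) : Per e' a :=
  ⟨ha.1, by rw [h, ha.int, ha.2]⟩

theorem exists_per (g : G) (e : ℝ) (h0 : g e = e) (h1 : g (e + 1) = e + 1) :
    ∃ a : G, Per e a ∧ ∀ t, e ≤ t → t ≤ e + 1 → a t = g t := by
  have hm := lin_mono 1 e one_pos
  have hu := lin_unb 1 e one_pos
  obtain ⟨a, ha⟩ := zglue (fun i : ℤ => 1 * (i : ℝ) + e) (fun i => tr i * g * (tr i)⁻¹) hm hu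
    (fun i => by
      simp only [mul_ap, tr_ap, tr_inv_ap]
      push_cast
      rw [show 1 * ((i : ℝ) + 1) + e - i = e + 1 by ring,
        show 1 * ((i : ℝ) + 1) + e - (i + 1) = e by ring, h0, h1]; ring)
    (by
      have : (fun i : ℤ => (tr i * g * (tr i)⁻¹) (1 * (i : ℝ) + e)) = fun i : ℤ => 1 * (i : ℝ) + e := by
        funext i
        simp only [mul_ap, tr_ap, tr_inv_ap]
        rw [show 1 * (i : ℝ) + e - i = e by ring, h0]; ring
      rw [this]; exact hu)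
  have h2 : ∀ t, e ≤ t → t ≤ e + 1 → a t = g t := fun t e1 e2 => by
    rw [ha 0 t (by simpa using e1) (by simp; linarith)]; simp
  refine ⟨a, ⟨fun t => ?_, by rw [h2 e le_rfl (by linarith), h0]⟩, h2⟩
  obtain ⟨i, e1, e2⟩ := idxR hm hu t
  push_cast at e2
  rw [ha i t e1 (by push_cast; linarith), ha (i + 1) (t + 1) (by push_cast; linarith)
    (by push_cast; linarith)]
  simp only [mul_ap, tr_ap, tr_inv_ap]
  push_cast
  rw [show t + 1 - ((i : ℝ) + 1) = t - i by ring]; ring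

def IsCut (p : ℝ) (c a : G) : Prop := Supp p (p + 1) c ∧ ∀ t, p ≤ t → t ≤ p + 1 → c t = a t

theorem Supp.mem {a b t : ℝ} {g : G} (hg : Supp a b g) (h1 : a ≤ t) (h2 : t ≤ b) :
    a ≤ g t ∧ g t ≤ b := by
  have e1 := MP_701b78_al.mono g h1
  have e2 := MP_701b78_al.mono g h2
  rw [hg a (Or.inl le_rfl)] at e1
  rw [hg b (Or.inr le_rfl)] at e2
  exact ⟨e1, e2⟩

theorem IsCut.mul {p : ℝ} {c a c' a' : G} (h : IsCut p c a) (h' : IsCut p c' a') :
    IsCut p (c * c') (a * a') :=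
  ⟨h.1.mul h'.1, fun t e1 e2 => by
    rw [mul_ap, mul_ap, h.2 _ (h'.1.mem e1 e2).1 (h'.1.mem e1 e2).2, h'.2 t e1 e2]⟩
theorem IsCut.inv {p : ℝ} {c a : G} (h : IsCut p c a) : IsCut p c⁻¹ a⁻¹ :=
  ⟨h.1.inv, fun t e1 e2 => (inv_eq (by
    rw [← h.2 _ (h.1.inv.mem e1 e2).1 (h.1.inv.mem e1 e2).2, ap_inv])).symm⟩
theorem IsCut.commutator {p : ℝ} {c a c' a' : G} (h : IsCut p c a) (h' : IsCut p c' a') :
    IsCut p ⁅c, c'⁆ ⁅a, a'⁆ := by
  simp only [commutatorElement_def]; exact ((h.mul h').mul h.inv).mul h'.inv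
theorem IsCut.shift {p p' e : ℝ} {c a : G} (h : IsCut p c a) (ha : Per e a) (n : ℤ) (δ : ℝ)
    (hn : δ = n) (hp : p' = p - δ) : IsCut p' ((tr δ)⁻¹ * c * tr δ) a := by
  subst hp
  refine ⟨fun t ht => ?_, fun t e1 e2 => ?_⟩
  · simp only [mul_ap, tr_ap, tr_inv_ap]
    rw [h.1 _ (by rcases ht with h | h; left; linarith; right; linarith)]; ring
  · simp only [mul_ap, tr_ap, tr_inv_ap]
    rw [h.2 _ (by linarith) (by linarith), hn, ha.int]; ring
theorem Per.cut {e : ℝ} {a : G} (ha : Per e a) : ∃ c, IsCut e c a :=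
  MP_701b78_al.cut a (by linarith) ha.2 (by rw [ha.1, ha.2])
theorem Supp.per {e : ℝ} {c : G} (hc : Supp e (e + 1) c) : ∃ a, Per e a ∧ IsCut e c a := by
  obtain ⟨a, h1, h2⟩ := exists_per c e (hc _ (Or.inl le_rfl)) (hc _ (Or.inr le_rfl))
  exact ⟨a, h1, hc, fun t e1 e2 => (h2 t e1 e2).symm⟩

def Hol (c : G) (x y : ℝ) (θ : G) : Prop :=
  Supp x y c ∧ ∃ w : G, (∀ t, t ≤ x → w t = t) ∧ (∀ t, y ≤ t → w t = θ t) ∧
    tr 1 * c * w = w * tr 1

theorem Hol.mono {c θ : G} {x y x' y' : ℝ} (h : Hol c x y θ) (h1 : x' ≤ x) (h2 : y ≤ y') :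
    Hol c x' y' θ := by
  obtain ⟨h0, w, a, b, e⟩ := h
  exact ⟨h0.mono h1 h2, w, fun t ht => a t (by linarith), fun t ht => b t (by linarith), e⟩

theorem hol_elem {p : ℝ} {c a : G} (ha : Per p a) (h : IsCut p c a) : Hol c p (p + 1) a := by
  have h1 : a (p + 1) = p + 1 := by rw [ha.1, ha.2]
  obtain ⟨w, w1, w2⟩ := glue 1 a (p + 1) (by simp [h1])
  refine ⟨h.1, w, fun t ht => by simp [w1 t (by linarith)], w2, ext fun t => ?_⟩
  simp only [mul_ap, tr_ap]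
  rcases le_total t p with e1 | e1
  · rw [w1 t (by linarith), w1 _ (by linarith), one_ap, one_ap, h.1 t (Or.inl e1)]
  rcases le_total t (p + 1) with e2 | e2
  · rw [w1 t e2, w2 _ (by linarith), one_ap, h.2 t e1 e2, ha.1]
  · rw [w2 t e2, w2 _ (by linarith), h.1 _ (Or.inr (h1 ▸ mono a e2)), ha.1]

theorem hol_comp {c1 c2 θ1 θ2 : G} {x y y' z z' : ℝ} (h1 : Hol c1 x y θ1) (h2 : Hol c2 y' z θ2)
    (a1 : x ≤ y') (a2 : y ≤ y') (a3 : y ≤ z') (a4 : z ≤ z') (a5 : z ≤ θ1 z') :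
    Hol (c2 * c1) x z' (θ2 * θ1) := by
  obtain ⟨s1, w1, b1, b2, b3⟩ := h1
  obtain ⟨s2, w2, d1, d2, d3⟩ := h2
  refine ⟨(s2.mono a1 a4).mul (s1.mono le_rfl a3), w2 * w1, fun t ht => ?_, fun t ht => ?_, ?_⟩
  · rw [mul_ap, b1 t ht, d1 t (by linarith)]
  · rw [mul_ap, b2 t (by linarith), d2 _ (le_trans a5 (mono _ ht)), mul_ap]
  · have := comm_of (p := y) (g := c1) (h := w2) (fun t ht => s1 t (Or.inr ht))
      (fun t ht => d1 t (by linarith))
    calc tr 1 * (c2 * c1) * (w2 * w1) = tr 1 * c2 * (c1 * w2) * w1 := by group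
      _ = (tr 1 * c2 * w2) * c1 * w1 := by rw [this]; group
      _ = w2 * (tr 1 * c1 * w1) := by rw [d3]; group
      _ = _ := by rw [b3]; group

def Gad (δ x y : ℝ) (θ : G) : Prop :=
  ∃ v : G, Supp (x + 3) (y - 3) v ∧ Hol ((tr δ)⁻¹ * v * tr δ * v⁻¹) x y θ

theorem gad_comp {δ x y y' z z' : ℝ} {θ1 θ2 : G} (hδ : δ = -1 ∨ δ = 3) (h1 : Gad δ x y θ1)
    (h2 : Gad δ y' z θ2) (a1 : x ≤ y') (a2 : y ≤ y') (a3 : y ≤ z') (a4 : z ≤ z')
    (a5 : z ≤ θ1 z') : Gad δ x z' (θ2 * θ1) := by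
  obtain ⟨v1, s1, h1⟩ := h1
  obtain ⟨v2, s2, h2⟩ := h2
  refine ⟨v1 * v2, (s1.mono le_rfl (by linarith)).mul (s2.mono (by linarith) (by linarith)), ?_⟩
  have h3 := s1.conj (tr δ)⁻¹
  rw [inv_inv, tr_inv_ap, tr_inv_ap] at h3
  have h4 := h3.comm h2.1 (by rcases hδ with h | h <;> linarith)
  have : (tr δ)⁻¹ * (v1 * v2) * tr δ * (v1 * v2)⁻¹ =
      ((tr δ)⁻¹ * v2 * tr δ * v2⁻¹) * ((tr δ)⁻¹ * v1 * tr δ * v1⁻¹) := by
    calc _ = ((tr δ)⁻¹ * v1 * tr δ * ((tr δ)⁻¹ * v2 * tr δ * v2⁻¹)) * v1⁻¹ := by group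
      _ = _ := by rw [h4]; group
  rw [this]
  exact hol_comp h1 h2 a1 a2 a3 a4 a5

theorem gadget {δ e : ℝ} {a b : G} (hδ : δ = -1 ∨ δ = 3) (ha : Per e a) (hb : Per e b) :
    Gad δ (e - 3) (e + 5) ⁅a, b⁆ := by
  rcases hδ with rfl | rfl
  · obtain ⟨g0, hg0⟩ := hb.cut
    have ha1 : Per (e + 1) a := ha.move 1 (by simp)
    have hb1 : Per (e + 1) b := hb.move 1 (by simp)
    have ha2 : Per (e + 2) a := ha.move 2 (by simp)
    obtain ⟨h1, hh1⟩ := ha1.cut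
    have hg1 : IsCut (e + 1) _ b := hg0.shift hb (-1) (-1) (by simp) (by ring)
    have hh2 : IsCut (e + 2) _ a := hh1.shift ha (-1) (-1) (by simp) (by ring)
    refine ⟨g0 * h1, (hg0.1.mono (by linarith) (by linarith)).mul
      (hh1.1.mono (by linarith) (by linarith)), ?_⟩
    have c1 := hg1.1.comm hh2.1 (by linarith)
    have H1 := hol_elem hb.inv hg0.inv
    have H2 := hol_elem (hb1.mul ha1.inv) (hg1.mul hh1.inv)
    have H3 := hol_elem ha2 hh2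
    have H4 := hol_comp (z' := e + 2) H1 H2 (by linarith) le_rfl (by linarith) (by linarith)
      (by rw [(hb.inv.move 2 (by simp) : Per (e + 2) _).2]; linarith)
    have H5 := hol_comp (z' := e + 5) H4 H3 (by linarith) le_rfl (by linarith) (by linarith)
      (by rw [(((hb.mul ha.inv).mul hb.inv).move 5 (by simp) : Per (e + 5) _).2]; linarith)
    have e1 : (tr (-1))⁻¹ * (g0 * h1) * tr (-1) * (g0 * h1)⁻¹ = (tr (-1))⁻¹ * h1 * tr (-1) *
        ((tr (-1))⁻¹ * g0 * tr (-1) * h1⁻¹ * g0⁻¹) := by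
      calc _ = ((tr (-1))⁻¹ * g0 * tr (-1) * ((tr (-1))⁻¹ * h1 * tr (-1))) * h1⁻¹ * g0⁻¹ := by
            group
        _ = _ := by rw [c1]; group
    have e2 : ⁅a, b⁆ = a * (b * a⁻¹ * b⁻¹) := by rw [commutatorElement_def]; group
    rw [e1, e2]
    exact H5.mono (by linarith) le_rfl
  · have hg := hb.inv
    have hh := ha.inv
    have e2 : ⁅a, b⁆ = (a⁻¹⁻¹ * b⁻¹⁻¹) * (a⁻¹ * b⁻¹) := by rw [commutatorElement_def]; group
    generalize a⁻¹ = h at *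
    generalize b⁻¹ = g at *
    obtain ⟨g0, hg0⟩ := hg.cut
    have hh1' : Per (e + 1) h := hh.move 1 (by simp)
    obtain ⟨h1, hh1⟩ := hh1'.cut
    have hg3 : IsCut (e - 3) _ g := hg0.shift hg 3 3 (by simp) (by ring)
    have hh2 : IsCut (e - 2) _ h := hh1.shift hh 3 3 (by simp) (by ring)
    refine ⟨g0 * h1, (hg0.1.mono (by linarith) (by linarith)).mul
      (hh1.1.mono (by linarith) (by linarith)), ?_⟩
    have H1 := hol_elem (hg.move (-3) (by simp; ring)) hg3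
    have H2 := hol_elem (hh.move (-2) (by simp; ring)) hh2
    have H3 := hol_elem hg.inv hg0.inv
    have H4 := hol_elem hh1'.inv hh1.inv
    have H5 := hol_comp (z' := e) H1 H2 (by linarith) (by linarith) (by linarith) (by linarith)
      (by rw [hg.2]; linarith)
    have H6 := hol_comp (z' := e + 2) H3 H4 (by linarith) le_rfl (by linarith) (by linarith)
      (by rw [(hg.inv.move 2 (by simp) : Per (e + 2) _).2]; linarith)
    have H7 := hol_comp (z' := e + 5) H5 H6 (by linarith) le_rfl (by linarith) (by linarith)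
      (by rw [((hh.mul hg).move 5 (by simp) : Per (e + 5) _).2]; linarith)
    have c1 := hg3.1.comm hh2.1 (by linarith)
    have c2 := H5.1.comm H6.1 le_rfl
    have e1 : (tr 3)⁻¹ * (g0 * h1) * tr 3 * (g0 * h1)⁻¹ = (h1⁻¹ * g0⁻¹) *
        ((tr 3)⁻¹ * h1 * tr 3 * ((tr 3)⁻¹ * g0 * tr 3)) := by
      rw [← c2, ← c1]; group
    rw [e1, e2]
    exact H7

theorem gad_two {δ e : ℝ} {k : G} {x y : ℝ} (hδ : δ = -1 ∨ δ = 3) (hk : Supp x y k) (hxy : x ≤ y)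
    (h1 : e < x) (h2 : y < e + 1) :
    ∃ θ, Per e θ ∧ IsCut e k θ ∧ ∀ (n : ℤ) (e' : ℝ), e' = e + n → Gad δ (e' - 3) (e' + 13) θ := by
  obtain ⟨A, B, Y, s, hA, hB, hY, hs, rfl⟩ := twoComm hk hxy h1 h2
  obtain ⟨A', pA, cA⟩ := hA.per
  obtain ⟨B', pB, cB⟩ := hB.per
  obtain ⟨Y', pY, cY⟩ := hY.per
  obtain ⟨s', ps, cs⟩ := hs.per
  refine ⟨⁅A', B'⁆ * ⁅Y', s'⁆, (pA.commutator pB).mul (pY.commutator ps),
    (cA.commutator cB).mul (cY.commutator cs), fun n e' he => ?_⟩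
  have g1 := gadget hδ (pY.move n he) (ps.move n he)
  have g2 := gadget (e := e' + 8) hδ ((pA.move n he).move 8 (by simp))
    ((pB.move n he).move 8 (by simp))
  exact gad_comp hδ g1 g2 (by linarith) (by linarith) (by linarith) (by linarith)
    (by rw [(((pY.commutator ps).move n he).move 13 (by simp) : Per (e' + 13) _).2]; linarith)

theorem realize {δ c : ℝ} {θ : G} (hδ : δ = -1 ∨ δ = 3) (hθ : Per (c + 40) θ) :
    ∃ θ' : G, (∀ t, c + 40 ≤ t → t ≤ c + 40 + 1 → θ' t = θ t) ∧ Gad δ (c + 1) (c + 40) θ' := by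
  set E := c + 40 with hE
  obtain ⟨a, a1, a2, a3⟩ : ∃ a, a < E ∧ E - 1 / 8 ≤ a ∧ E - 1 / 8 ≤ θ a :=
    ⟨max (E - 1 / 8) (θ⁻¹ (E - 1 / 8)), max_lt (by linarith) (inv_lt.2 (by rw [hθ.2]; linarith)),
      le_max_left _ _, inv_le.1 (le_max_right _ _)⟩
  obtain ⟨b, b1, b2, b3⟩ : ∃ b, E < b ∧ b ≤ E + 1 / 8 ∧ θ b ≤ E + 1 / 8 :=
    ⟨min (E + 1 / 8) (θ⁻¹ (E + 1 / 8)), lt_min (by linarith) (lt_inv.2 (by rw [hθ.2]; linarith)),
      min_le_left _ _, le_inv.1 (min_le_right _ _)⟩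
  obtain ⟨k, k1, k2⟩ := agree θ (x := E - 1 / 4) (y := E + 1 / 4) (a := a) (b := b) (by linarith)
    (by linarith) (by linarith) (by linarith) (by linarith)
  obtain ⟨θ2, p2, c2, g2⟩ := gad_two (e := E - 1 / 2) hδ k1 (by linarith) (by linarith)
    (by linarith)
  have f1 : ∀ t, a ≤ t → t ≤ b → (θ2⁻¹ * θ) t = t := fun t e1 e2 => by
    rw [mul_ap]
    exact inv_eq (by rw [← c2.2 t (by linarith) (by linarith), k2 t e1 e2])
  have p1 : Per E (θ2⁻¹ * θ) := ⟨fun t => by simp [hθ.1, p2.inv.1], f1 E a1.le b1.le⟩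
  have f2 : ∀ t, a + 1 ≤ t → t ≤ b + 1 → (θ2⁻¹ * θ) t = t := fun t e1 e2 => by
    have := p1.1 (t - 1)
    rw [f1 (t - 1) (by linarith) (by linarith), sub_add_cancel] at this
    exact this
  obtain ⟨k', m1, m2⟩ := cut (θ2⁻¹ * θ) (x := b) (y := a + 1) (by linarith)
    (f1 b (by linarith) le_rfl) (f2 _ le_rfl (by linarith))
  obtain ⟨θ1, p1', c1, g1⟩ := gad_two (e := E) hδ m1 (by linarith) b1 (by linarith)
  refine ⟨θ2 * θ1, fun t e1 e2 => ?_, ?_⟩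
  · have : k' t = (θ2⁻¹ * θ) t := by
      rcases le_total t b with h | h
      · rw [m1 t (Or.inl h), f1 t (by linarith) h]
      rcases le_total t (a + 1) with h' | h'
      · exact m2 t h h'
      · rw [m1 t (Or.inr h'), f2 t h' (by linarith)]
    rw [mul_ap, ← c1.2 t e1 e2, this, mul_ap, ap_inv]
  · have G1 := g1 (-36) (c + 4) (by rw [hE]; push_cast; ring)
    have G2 := g2 (-19) (c + 41 / 2) (by rw [hE]; push_cast; ring)
    rw [show c + 4 - 3 = c + 1 by ring] at G1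
    exact gad_comp hδ G1 G2 (by linarith) (by linarith) (by linarith) (by linarith)
      (by rw [p1'.2]; linarith)

end Pool.Agent.H.MP_701b78_al
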