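import Pool.Agent.H.MP_701b78_al.C

open Filter Topology Set

namespace Pool.Agent.H.MP_701b78_al

theorem extF (a r w : G) (s0 s : ℝ) (h0 : s0 ≤ s) (h1 : s ≤ a s)
    (hc : ∀ t, s0 ≤ t → t ≤ s → w (a t) = r (w t)) (n : ℕ) :
    ∃ w' : G, s ≤ (a ^ n) s ∧ (∀ t, s0 ≤ t → t ≤ (a ^ n) s → w' (a t) = r (w' t)) ∧
      (∀ t, t ≤ a s → w' t = w t) ∧ w' ((a ^ n) s) = (r ^ n) (w s) := by
  induction n with
  | zero => exact ⟨w, by simp, by simpa using hc, fun _ _ => rfl, by simp⟩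
  | succ n ih =>
    obtain ⟨w1, e0, e1, e2, e3⟩ := ih
    rw [pow_succ', pow_succ', mul_ap, mul_ap]
    generalize (a ^ n) s = s' at *
    have e4 := e1 s' (by linarith) le_rfl
    obtain ⟨k, k1, k2⟩ := glue w1 (r * w1 * a⁻¹) (a s') (by simp [e4])
    refine ⟨k, le_trans h1 (mono a e0), fun t b1 b2 => ?_,
      fun t ht => by rw [k1 t (le_trans ht (mono a e0)), e2 t ht], by rw [k1 _ le_rfl, e4, e3]⟩
    rw [k1 t b2]
    rcases le_total t s' with h | h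
    · rw [k1 _ (mono a h), e1 t b1 h]
    · rw [k2 _ (mono a h)]; simp

theorem extB (a r w : G) (s s1 : ℝ) (h0 : s ≤ s1) (h1 : s ≤ a s)
    (hc : ∀ t, s ≤ t → t ≤ s1 → w (a t) = r (w t)) (n : ℕ) :
    ∃ w' : G, (a⁻¹ ^ n) s ≤ s ∧ (∀ t, (a⁻¹ ^ n) s ≤ t → t ≤ s1 → w' (a t) = r (w' t)) ∧
      (∀ t, s ≤ t → w' t = w t) ∧ w' ((a⁻¹ ^ n) s) = (r⁻¹ ^ n) (w s) := by
  induction n with
  | zero => exact ⟨w, by simp, by simpa using hc, fun _ _ => rfl, by simp⟩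
  | succ n ih =>
    obtain ⟨w1, e0, e1, e2, e3⟩ := ih
    rw [pow_succ', pow_succ', mul_ap, mul_ap]
    have e5 : a⁻¹ ((a⁻¹ ^ n) s) ≤ (a⁻¹ ^ n) s := by
      rw [← mul_ap, ← pow_succ', pow_succ, mul_ap]
      exact mono _ (inv_le.2 h1)
    generalize (a⁻¹ ^ n) s = s' at *
    have e4 := e1 s' le_rfl (by linarith)
    obtain ⟨k, k1, k2⟩ := glue (r⁻¹ * w1 * a) w1 s' (by simp [e4])
    refine ⟨k, by linarith, fun t b1 b2 => ?_,
      fun t ht => by rw [k2 t (by linarith), e2 t ht], by rw [k1 _ e5, ← e3]; simp⟩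
    rw [k2 _ (inv_le.1 b1)]
    rcases le_total t s' with h | h
    · rw [k1 _ h]; simp
    · rw [k2 _ h, e1 t h b2]

theorem pow_fix {a : G} {p : ℝ} (h : a p = p) (n : ℕ) : (a ^ n) p = p := by
  induction n with
  | zero => simp
  | succ n ih => rw [pow_succ, mul_ap, h, ih]

theorem orbit (r : G) (x y : ℝ) (hx : x ≤ r x) (hup : ∀ t, x ≤ t → t ≤ y → t < r t) :
    ∃ n, ∀ m, n ≤ m → y ≤ (r ^ m) x := by
  have hm : Monotone fun n : ℕ => (r ^ n) x :=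
    monotone_nat_of_le_succ fun n => by rw [pow_succ, mul_ap]; exact mono _ hx
  suffices ∃ n, y ≤ (r ^ n) x by
    obtain ⟨n, hn⟩ := this
    exact ⟨n, fun m h => le_trans hn (hm h)⟩
  by_contra h
  push Not at h
  have hb : BddAbove (range fun n : ℕ => (r ^ n) x) := ⟨y, by rintro _ ⟨n, rfl⟩; exact (h n).le⟩
  have h1 : x ≤ ⨆ n : ℕ, (r ^ n) x := by simpa using le_ciSup hb 0
  have h2 : ⨆ n : ℕ, (r ^ n) x ≤ y := ciSup_le fun n => (h n).le
  obtain ⟨n, hn⟩ := exists_lt_of_lt_ciSup (inv_lt.2 (hup _ h1 h2))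
  have h3 := le_ciSup hb (n + 1)
  rw [pow_succ', mul_ap] at h3
  have := inv_lt.1 hn
  linarith

structure UF (U : G) : Prop where
  p1 : ∀ t, t ≤ 1 → U t = 2 * t
  p2 : ∀ t, 1 ≤ t → t ≤ 46 → U t = t + 1
  p3 : ∀ t, 46 ≤ t → t ≤ 48 → U t = 2 * t - 45
  p4 : ∀ t, 48 ≤ t → t ≤ 93 → U t = t + 3
  p5 : ∀ t, 93 ≤ t → t ≤ 103 → U t = 2 * t - 90
  p6 : ∀ t, 103 ≤ t → t ≤ 123 → U t = t / 2 + 129 / 2
  p7 : ∀ t, 123 ≤ t → t ≤ 168 → U t = t + 3
  p8 : ∀ t, 168 ≤ t → t ≤ 172 → U t = t / 2 + 87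
  p9 : ∀ t, 172 ≤ t → t ≤ 217 → U t = t + 1
  p10 : ∀ t, 217 ≤ t → U t = t / 2 + 219 / 2

theorem exists_U : ∃ U, UF U := by
  obtain ⟨a1, b1⟩ := exists_aff 2 0 two_pos
  obtain ⟨a3, b3⟩ := exists_aff 2 (-45) two_pos
  obtain ⟨a5, b5⟩ := exists_aff 2 (-90) two_pos
  obtain ⟨a6, b6⟩ := exists_aff (1 / 2) (129 / 2) one_half_pos
  obtain ⟨a8, b8⟩ := exists_aff (1 / 2) 87 one_half_pos
  obtain ⟨a10, b10⟩ := exists_aff (1 / 2) (219 / 2) one_half_pos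
  obtain ⟨k9, l9, r9⟩ := glue (tr 1) a10 217 (by rw [b10, tr_ap]; norm_num)
  obtain ⟨k8, l8, r8⟩ := glue a8 k9 172 (by rw [b8, l9 _ (by norm_num), tr_ap]; norm_num)
  obtain ⟨k7, l7, r7⟩ := glue (tr 3) k8 168 (by rw [l8 _ (by norm_num), b8, tr_ap]; norm_num)
  obtain ⟨k6, l6, r6⟩ := glue a6 k7 123 (by rw [b6, l7 _ (by norm_num), tr_ap]; norm_num)
  obtain ⟨k5, l5, r5⟩ := glue a5 k6 103 (by rw [b5, l6 _ (by norm_num), b6]; norm_num)
  obtain ⟨k4, l4, r4⟩ := glue (tr 3) k5 93 (by rw [l5 _ (by norm_num), b5, tr_ap]; norm_num)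
  obtain ⟨k3, l3, r3⟩ := glue a3 k4 48 (by rw [b3, l4 _ (by norm_num), tr_ap]; norm_num)
  obtain ⟨k2, l2, r2⟩ := glue (tr 1) k3 46 (by rw [l3 _ (by norm_num), b3, tr_ap]; norm_num)
  obtain ⟨k1, l1, r1⟩ := glue a1 k2 1 (by rw [b1, l2 _ (by norm_num), tr_ap]; norm_num)
  have s2 : ∀ t, 46 ≤ t → k1 t = k3 t := fun t h => by rw [r1 t (by linarith), r2 t h]
  have s3 : ∀ t, 48 ≤ t → k1 t = k4 t := fun t h => by rw [s2 t (by linarith), r3 t h]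
  have s4 : ∀ t, 93 ≤ t → k1 t = k5 t := fun t h => by rw [s3 t (by linarith), r4 t h]
  have s5 : ∀ t, 103 ≤ t → k1 t = k6 t := fun t h => by rw [s4 t (by linarith), r5 t h]
  have s6 : ∀ t, 123 ≤ t → k1 t = k7 t := fun t h => by rw [s5 t (by linarith), r6 t h]
  have s7 : ∀ t, 168 ≤ t → k1 t = k8 t := fun t h => by rw [s6 t (by linarith), r7 t h]
  have s8 : ∀ t, 172 ≤ t → k1 t = k9 t := fun t h => by rw [s7 t (by linarith), r8 t h]
  refine ⟨k1, fun t h => ?_, fun t h h' => ?_, fun t h h' => ?_, fun t h h' => ?_,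
    fun t h h' => ?_, fun t h h' => ?_, fun t h h' => ?_, fun t h h' => ?_, fun t h h' => ?_,
    fun t h => ?_⟩
  · rw [l1 t h, b1]; ring
  · rw [r1 t h, l2 t h', tr_ap]
  · rw [s2 t h, l3 t h', b3]; ring
  · rw [s3 t h, l4 t h', tr_ap]
  · rw [s4 t h, l5 t h', b5]; ring
  · rw [s5 t h, l6 t h', b6]; ring
  · rw [s6 t h, l7 t h', tr_ap]
  · rw [s7 t h, l8 t h', b8]; ring
  · rw [s8 t h, l9 t h', tr_ap]
  · rw [s8 t (by linarith), r9 t h, b10]; ring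

theorem UF.cases {U : G} (h : UF U) (t : ℝ) :
    (t ≤ 1 ∧ U t = 2 * t) ∨ (1 ≤ t ∧ t ≤ 46 ∧ U t = t + 1) ∨
    (46 ≤ t ∧ t ≤ 48 ∧ U t = 2 * t - 45) ∨ (48 ≤ t ∧ t ≤ 93 ∧ U t = t + 3) ∨
    (93 ≤ t ∧ t ≤ 103 ∧ U t = 2 * t - 90) ∨ (103 ≤ t ∧ t ≤ 123 ∧ U t = t / 2 + 129 / 2) ∨
    (123 ≤ t ∧ t ≤ 168 ∧ U t = t + 3) ∨ (168 ≤ t ∧ t ≤ 172 ∧ U t = t / 2 + 87) ∨
    (172 ≤ t ∧ t ≤ 217 ∧ U t = t + 1) ∨ (217 ≤ t ∧ U t = t / 2 + 219 / 2) := by
  rcases le_total t 1 with h1 | h1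
  · exact .inl ⟨h1, h.p1 t h1⟩
  right
  rcases le_total t 46 with h2 | h2
  · exact .inl ⟨h1, h2, h.p2 t h1 h2⟩
  right
  rcases le_total t 48 with h3 | h3
  · exact .inl ⟨h2, h3, h.p3 t h2 h3⟩
  right
  rcases le_total t 93 with h4 | h4
  · exact .inl ⟨h3, h4, h.p4 t h3 h4⟩
  right
  rcases le_total t 103 with h5 | h5
  · exact .inl ⟨h4, h5, h.p5 t h4 h5⟩
  right
  rcases le_total t 123 with h6 | h6
  · exact .inl ⟨h5, h6, h.p6 t h5 h6⟩
  right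
  rcases le_total t 168 with h7 | h7
  · exact .inl ⟨h6, h7, h.p7 t h6 h7⟩
  right
  rcases le_total t 172 with h8 | h8
  · exact .inl ⟨h7, h8, h.p8 t h7 h8⟩
  right
  rcases le_total t 217 with h9 | h9
  · exact .inl ⟨h8, h9, h.p9 t h8 h9⟩
  right
  exact ⟨h9, h.p10 t h9⟩

theorem UF.z0 {U : G} (h : UF U) : U 0 = 0 := by rw [h.p1 0 (by norm_num)]; norm_num
theorem UF.z1 {U : G} (h : UF U) : U 219 = 219 := by rw [h.p10 219 (by norm_num)]; norm_num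
theorem UF.gt {U : G} (h : UF U) {t : ℝ} (h1 : 0 < t) (h2 : t < 219) : t < U t := by
  rcases h.cases t with h | h | h | h | h | h | h | h | h | h <;> linarith [h.1, h.2]
theorem UF.ge {U : G} (h : UF U) {t : ℝ} (h1 : 0 ≤ t) (h2 : t ≤ 219) : t ≤ U t := by
  rcases h.cases t with h | h | h | h | h | h | h | h | h | h <;> linarith [h.1, h.2]
theorem UF.big {U : G} (h : UF U) {t : ℝ} (h1 : 47 < t) (h2 : t < 170) : t + 2 < U t := by
  rcases h.cases t with h | h | h | h | h | h | h | h | h | h <;> linarith [h.1, h.2]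
theorem UF.small {U : G} (h : UF U) {t : ℝ} (h1 : t < 47 ∨ 170 < t) : U t < t + 2 := by
  rcases h1 with h1 | h1 <;>
  rcases h.cases t with h | h | h | h | h | h | h | h | h | h <;> linarith [h.1, h.2]

def Std (U r : G) (q q' : ℝ) : Prop :=
  ∃ W : G, W 0 = q ∧ W 219 = q' ∧ ∀ t, 0 ≤ t → t ≤ 219 → W (U t) = r (W t)

theorem fixL {U : G} (hU : UF U) {δ : ℝ} (hδ : δ = -1 ∨ δ = 3) (r : G) (q q' c : ℝ) (hq : q < c)
    (hq' : c + 40 < q') (up : ∀ t, q < t → t < q' → t < r t)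
    (g0 : ∀ t, q ≤ t → t ≤ q + 1 → r t = q + 2 * (t - q))
    (g1 : ∀ t, q' - 1 ≤ t → t ≤ q' → r t = q' + (t - q') / 2)
    (pl : ∀ t, c ≤ t → t ≤ c + 40 → r t = t + 1) :
    ∃ v : G, Supp (c + 4) (c + 37) v ∧ ∀ r' : G, (∀ t, t ≤ c ∨ c + 40 ≤ t → r' t = r t) →
      (∀ t, c ≤ t → t ≤ c + 40 → r' t = (tr 1 * ((tr δ)⁻¹ * v * tr δ * v⁻¹)) t) →
      Std U r' q q' := by
  obtain ⟨n, hn⟩ := orbit r (q + 1) (c + 40) (by rw [g0 _ (by linarith) le_rfl]; linarith)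
    (fun t e1 e2 => up t (by linarith) (by linarith))
  have hU1 : U 1 = 2 := by rw [hU.p1 1 le_rfl]; norm_num
  obtain ⟨wL, -, L1, L2, L3⟩ := extF U r (tr q) 0 1 zero_le_one (by linarith) (fun t e1 e2 => by
    rw [tr_ap, tr_ap, hU.p1 t e2, g0 _ (by linarith) (by linarith)]; ring) n
  have L0 : wL 0 = q := by rw [L2 0 (by linarith)]; simp
  have L4 := hn n le_rfl
  rw [tr_ap, add_comm 1 q] at L3
  rw [← L3] at L4
  have L5 : (U ^ n) 1 < 219 := by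
    have := smono (U ^ n) (show (1 : ℝ) < 219 by norm_num)
    rwa [pow_fix hU.z1] at this
  obtain ⟨z, hz⟩ : ∃ z, wL z = c + 40 := ⟨_, ap_inv wL _⟩
  have z1 : z ≤ (U ^ n) 1 := by rw [← ap_le (f := wL), hz]; exact L4
  have z0 : 0 < z := by rw [← ap_lt (f := wL), hz, L0]; linarith
  have z2 : z < U z := hU.gt z0 (by linarith)
  obtain ⟨m1, hm1⟩ := orbit U z 217 z2.le (fun t e1 e2 => hU.gt (by linarith) (by linarith))
  obtain ⟨m2, hm2⟩ := orbit r (c + 40) (q' - 1) (up _ (by linarith) hq').le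
    (fun t e1 e2 => up t (by linarith) (by linarith))
  have M1 := hm1 _ (le_max_left m1 m2)
  have M2 := hm2 _ (le_max_right m1 m2)
  generalize max m1 m2 = M at M1 M2
  have M3 : (U ^ M) z < 219 := by
    have := smono (U ^ M) (show z < 219 by linarith)
    rwa [pow_fix hU.z1] at this
  have rq : r q' = q' := by rw [g1 q' (by linarith) le_rfl]; ring
  have M4 : (r ^ M) (c + 40) < q' := by
    have := smono (r ^ M) hq'
    rwa [pow_fix rq] at this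
  obtain ⟨w1, α, hα, a1, a2, a3⟩ := exists_interp M3 M4
  obtain ⟨wR, -, R1, R2, R3⟩ := extB U r w1 ((U ^ M) z) 219 M3.le
    (hU.ge (by linarith) M3.le) (fun t e1 e2 => by
      have e3 := mono w1 e1
      have e4 := mono w1 e2
      rw [g1 _ (by linarith) (by linarith), hU.p10 t (by linarith), a1, a1, ← a3, a1]; ring) M
  rw [a2] at R3
  simp only [inv_pow, inv_ap] at R1 R3
  have R0 : wR 219 = q' := by rw [R2 _ M3.le, a3]
  have L6 : wL (U z) = c + 40 + 1 := by rw [L1 z z0.le z1, hz, pl _ (by linarith) le_rfl]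
  have R6 : wR (U z) = c + 40 + 1 := by
    rw [R1 z le_rfl (by linarith), R3, pl _ (by linarith) le_rfl]
  obtain ⟨θ, pθ, hθ⟩ := exists_per (wR * wL⁻¹) (c + 40) (by rw [mul_ap, inv_eq hz, R3])
    (by rw [mul_ap, inv_eq L6, R6])
  obtain ⟨θ', t1, v, hv, -, w, w1, w2, w3⟩ := realize hδ pθ
  refine ⟨v, hv.mono (by linarith) (by linarith), fun r' e1 e2 => ?_⟩
  have key : ∀ s, z ≤ s → s ≤ U z → w (wL s) = wR s := fun s b1 b2 => by
    have c1 := mono wL b1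
    have c2 := mono wL b2
    rw [hz] at c1
    rw [L6] at c2
    rw [w2 _ c1, t1 _ c1 c2, hθ _ c1 c2, mul_ap, inv_ap]
  obtain ⟨W, W1, W2⟩ := glue (w * wL) wR z (key z le_rfl z2.le)
  have W3 : ∀ s, s ≤ U z → W s = w (wL s) := fun s h => by
    rcases le_total s z with h' | h'
    · exact W1 s h'
    · rw [W2 s h', key s h' h]
  refine ⟨W, by rw [W1 0 z0.le, mul_ap, L0, w1 q (by linarith)], by rw [W2 _ (by linarith), R0],
    fun t b1 b2 => ?_⟩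
  rcases le_total t z with h | h
  · rw [W3 _ (mono U h), W1 t h, mul_ap, L1 t b1 (by linarith)]
    have c1 := mono wL h
    rw [hz] at c1
    generalize wL t = y at *
    rcases le_total y c with h' | h'
    · have := mono r h'
      rw [pl c le_rfl (by linarith)] at this
      rw [w1 _ this, w1 y (by linarith), e1 y (Or.inl h')]
    · have d1 := mono w h'
      have d2 := mono w c1
      rw [w1 c (by linarith)] at d1
      rw [← hz, key z le_rfl z2.le, R3] at d2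
      rw [e2 _ d1 d2, ← mul_ap _ w, w3, pl y h' c1]; simp
  · have d1 := mono wR h
    rw [R3] at d1
    rw [W2 t h, W2 _ (le_trans h (hU.ge b1 b2)), R1 t h b2, e1 _ (Or.inr d1)]

end Pool.Agent.H.MP_701b78_al
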