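import Pool.Agent.H.MP_701b78_al.D

open Filter Topology Set

namespace Pool.Agent.H.MP_701b78_al

def LocB (U f R : G) (q q' : ℝ) : Prop :=
  ∃ (u : G) (a b : ℝ), Supp a b u ∧ q ≤ a ∧ f q ≤ a ∧ b ≤ q' ∧ b ≤ f q' ∧
    Std U (u * R⁻¹ * u⁻¹ * f) q q'

def LocC (U f R : G) (q q' : ℝ) : Prop :=
  ∃ (u : G) (a b : ℝ), Supp a b u ∧ q ≤ a ∧ f q ≤ a ∧ b ≤ q' ∧ b ≤ f q' ∧
    Std U (u * R⁻¹ * u⁻¹ * f)⁻¹ q q'

theorem fixB {U : G} (hU : UF U) (f R : G) (q q' c j : ℝ) (hj : j = 2 ∨ j = -2) (hq : q < c)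
    (hq' : c + 40 < q') (up : ∀ t, q < t → t < q' → R t < f t)
    (g0 : ∀ t, q ≤ t → t ≤ q + 1 → R⁻¹ (f t) = q + 2 * (t - q))
    (g1 : ∀ t, q' - 1 ≤ t → t ≤ q' → R⁻¹ (f t) = q' + (t - q') / 2)
    (pf : ∀ t, c ≤ t → t ≤ c + 40 → f t = t + j)
    (pR : ∀ y, c + j ≤ y → y ≤ c + 40 + j → R⁻¹ y = y + 1 - j) : LocB U f R q q' := by
  have pl : ∀ t, c ≤ t → t ≤ c + 40 → (R⁻¹ * f) t = t + 1 := fun t e1 e2 => by
    rw [mul_ap, pf t e1 e2, pR _ (by linarith) (by linarith)]; ring
  obtain ⟨v, hv, H⟩ := fixL hU (δ := 1 - j) (by rcases hj with h | h <;> simp [h] <;> norm_num)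
    (R⁻¹ * f) q q' c hq hq' (fun t e1 e2 => lt_inv.2 (up t e1 e2)) g0 g1 pl
  have hu := hv.conj (tr j)
  rw [tr_ap, tr_ap] at hu
  have f0 := pf c le_rfl (by linarith)
  have f1 := pf (c + 40) (by linarith) le_rfl
  have hj1 : -2 ≤ j ∧ j ≤ 2 := by rcases hj with h | h <;> constructor <;> linarith
  refine ⟨_, _, _, hu, by linarith, by linarith [mono f hq.le], by linarith,
    by linarith [mono f hq'.le], H _ (fun t ht => ?_) (fun t e1 e2 => ?_)⟩
  · generalize tr j * v * (tr j)⁻¹ = u at *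
    simp only [mul_ap] at pl ⊢
    rcases ht with h | h
    · have e1 := mono f h
      have e2 := mono R⁻¹ e1
      rw [pl c le_rfl (by linarith)] at e2
      rw [hu.inv _ (Or.inl (by linarith)), hu _ (Or.inl (by linarith))]
    · have e1 := mono f h
      have e2 := mono R⁻¹ e1
      rw [pl _ (by linarith) le_rfl] at e2
      rw [hu.inv _ (Or.inr (by linarith)), hu _ (Or.inr (by linarith))]
  · obtain ⟨d1, d2⟩ := (hv.inv.mono (a' := c) (b' := c + 40) (by linarith) (by linarith)).mem e1 e2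
    simp only [mul_inv_rev, inv_inv, mul_ap, tr_ap, tr_inv_ap]
    rw [pf t e1 e2, add_sub_cancel_right, pR _ (by linarith) (by linarith),
      show v⁻¹ t + j + 1 - j - j = v⁻¹ t + (1 - j) by ring]
    ring

theorem fixC {U : G} (hU : UF U) (f R : G) (q q' c j : ℝ) (hj : j = 2 ∨ j = -2) (hq : q < c)
    (hq' : c + 40 < q') (up : ∀ t, q < t → t < q' → f t < R t)
    (g0 : ∀ t, q ≤ t → t ≤ q + 1 → f⁻¹ (R t) = q + 2 * (t - q))
    (g1 : ∀ t, q' - 1 ≤ t → t ≤ q' → f⁻¹ (R t) = q' + (t - q') / 2)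
    (pR : ∀ t, c ≤ t → t ≤ c + 40 → R t = t + j + 1)
    (pf : ∀ t, c + 1 ≤ t → t ≤ c + 41 → f t = t + j) : LocC U f R q q' := by
  have pf' : ∀ y, c + j + 1 ≤ y → y ≤ c + 41 + j → f⁻¹ y = y - j := fun y e1 e2 =>
    inv_eq (by rw [pf _ (by linarith) (by linarith)]; ring)
  have pl : ∀ t, c ≤ t → t ≤ c + 40 → (f⁻¹ * R) t = t + 1 := fun t e1 e2 => by
    rw [mul_ap, pR t e1 e2, pf' _ (by linarith) (by linarith)]; ring
  obtain ⟨v, hv, H⟩ := fixL hU (δ := 1 + j) (by rcases hj with h | h <;> simp [h] <;> norm_num)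
    (f⁻¹ * R) q q' c hq hq' (fun t e1 e2 => lt_inv.2 (up t e1 e2)) g0 g1 pl
  have f0 := pR c le_rfl (by linarith)
  have f1 := pR (c + 40) (by linarith) le_rfl
  have hj1 : -2 ≤ j ∧ j ≤ 2 := by rcases hj with h | h <;> constructor <;> linarith
  have f2 : f q = R q := by
    have := g0 q le_rfl (by linarith)
    rw [← ap_inv f (R q), this]; simp
  have f3 : f q' = R q' := by
    have := g1 q' (by linarith) le_rfl
    rw [← ap_inv f (R q'), this]; simp
  refine ⟨v, _, _, hv, by linarith, by linarith [mono R hq.le], by linarith,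
    by linarith [mono R hq'.le], H _ (fun t ht => ?_) (fun t e1 e2 => ?_)⟩
  · simp only [mul_inv_rev, inv_inv, mul_ap]
    rcases ht with h | h
    · have e1 := mono R h
      rw [hv.inv _ (Or.inl (by linarith)), hv _ (Or.inl (by linarith))]
    · have e1 := mono R h
      rw [hv.inv _ (Or.inr (by linarith)), hv _ (Or.inr (by linarith))]
  · obtain ⟨d1, d2⟩ := (hv.inv.mono (a' := c) (b' := c + 40) (by linarith) (by linarith)).mem e1 e2
    simp only [mul_inv_rev, inv_inv, mul_ap, tr_ap, tr_inv_ap]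
    obtain ⟨d3, d4⟩ := (hv.mono (a' := c + j + 1) (b' := c + 41 + j) (by linarith)
      (by linarith)).mem (t := v⁻¹ t + j + 1) (by linarith) (by linarith)
    rw [pR _ d1 d2, pf' _ d3 d4, show v⁻¹ t + j + 1 = v⁻¹ t + (1 + j) by ring]
    ring

structure RF (U R : G) (o : ℝ) : Prop where
  r1 : ∀ t, o ≤ t → t ≤ o + 219 → R t = o + U (t - o)
  r2 : ∀ t, o + 219 ≤ t → t ≤ o + 438 → R⁻¹ t = o + 219 + U (t - o - 219)
  r3 : ∀ t, o - 219 ≤ t → t ≤ o → R⁻¹ t = o - 219 + U (t - o + 219)

def Z (f : G) (o j : ℝ) : Prop :=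
  (j = 2 ∨ j = 0 ∨ j = -2) ∧ ∀ t, o - 104 ≤ t → t ≤ o + 329 → f t = t + j

section
variable {U R f : G} {o j : ℝ} (hU : UF U) (hR : RF U R o)
include hU hR

theorem Rup {t : ℝ} (h1 : o ≤ t) (h2 : t ≤ o + 219) : t ≤ R t := by
  rw [hR.r1 t h1 h2]; linarith [hU.ge (t := t - o) (by linarith) (by linarith)]
theorem Rdn {t : ℝ} (h1 : o + 219 ≤ t) (h2 : t ≤ o + 438) : R t ≤ t := by
  rw [← le_inv, hR.r2 t h1 h2]; linarith [hU.ge (t := t - o - 219) (by linarith) (by linarith)]
theorem Rdn' {t : ℝ} (h1 : o - 219 ≤ t) (h2 : t ≤ o) : R t ≤ t := by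
  rw [← le_inv, hR.r3 t h1 h2]; linarith [hU.ge (t := t - o + 219) (by linarith) (by linarith)]

theorem sB1 (hj : j = 2 ∨ j = 0 ∨ j = -2) {t : ℝ} (h1 : o + (219 - 49 * j / 2) < t)
    (h2 : t ≤ o + 329) : R t < t + j := by
  rcases hj with rfl | rfl | rfl
  · rcases le_total t (o + 219) with h | h
    · rw [hR.r1 t (by linarith) h]
      linarith [hU.small (t := t - o) (Or.inr (by linarith))]
    · linarith [Rdn hU hR h (by linarith)]
  · rw [← lt_inv, hR.r2 _ (by linarith) (by linarith)]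
    linarith [hU.gt (t := t + 0 - o - 219) (by linarith) (by linarith)]
  · rw [← lt_inv, hR.r2 _ (by linarith) (by linarith)]
    linarith [hU.big (t := t + -2 - o - 219) (by linarith) (by linarith)]

theorem sB2 (hj : j = 2 ∨ j = 0 ∨ j = -2) {t : ℝ} (h1 : o - 104 ≤ t)
    (h2 : t < o + 47 * j / 2) : R t < t + j := by
  rcases hj with rfl | rfl | rfl
  · rcases le_total t o with h | h
    · linarith [Rdn' hU hR (by linarith) h]
    · rw [hR.r1 t h (by linarith)]
      linarith [hU.small (t := t - o) (Or.inl (by linarith))]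
  · rw [← lt_inv, hR.r3 _ (by linarith) (by linarith)]
    linarith [hU.gt (t := t + 0 - o + 219) (by linarith) (by linarith)]
  · rw [← lt_inv, hR.r3 _ (by linarith) (by linarith)]
    linarith [hU.big (t := t + -2 - o + 219) (by linarith) (by linarith)]

theorem sC (hj : j = 2 ∨ j = -2) {t : ℝ} (h1 : o + 47 * j / 2 < t)
    (h2 : t < o + (219 - 49 * j / 2)) : t + j < R t := by
  rcases hj with rfl | rfl
  · rw [hR.r1 t (by linarith) (by linarith)]
    linarith [hU.big (t := t - o) (by linarith) (by linarith)]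
  · rcases le_total t o with h | h
    · rw [← inv_lt, hR.r3 _ (by linarith) (by linarith)]
      linarith [hU.small (t := t + -2 - o + 219) (Or.inr (by linarith))]
    rcases le_total t (o + 219) with h' | h'
    · linarith [Rup hU hR h h']
    rcases le_total t (o + 221) with h3 | h3
    · have := mono R h'
      have e := Rup hU hR (t := o + 219) (by linarith) le_rfl
      rcases h3.eq_or_lt with h4 | h4
      · have := smono R (show o + 219 < t by linarith)
        linarith
      · linarith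
    · rw [← inv_lt, hR.r2 _ (by linarith) (by linarith)]
      linarith [hU.small (t := t + -2 - o - 219) (Or.inl (by linarith))]

theorem gB0 (hj : j = 2 ∨ j = 0 ∨ j = -2) {q t : ℝ} (hq : q = o + (219 - 49 * j / 2)) (h1 : q ≤ t)
    (h2 : t ≤ q + 1) : R⁻¹ (t + j) = q + 2 * (t - q) := by
  rcases hj with rfl | rfl | rfl
  · apply inv_eq
    rw [hR.r1 _ (by linarith) (by linarith), hU.p8 _ (by linarith) (by linarith)]; linarith
  · rw [hR.r2 _ (by linarith) (by linarith), hU.p1 _ (by linarith)]; linarith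
  · rw [hR.r2 _ (by linarith) (by linarith), hU.p3 _ (by linarith) (by linarith)]; linarith

theorem gB1 (hj : j = 2 ∨ j = 0 ∨ j = -2) {q t : ℝ} (hq : q = o + 47 * j / 2) (h1 : q - 1 ≤ t)
    (h2 : t ≤ q) : R⁻¹ (t + j) = q + (t - q) / 2 := by
  rcases hj with rfl | rfl | rfl
  · apply inv_eq
    rw [hR.r1 _ (by linarith) (by linarith), hU.p3 _ (by linarith) (by linarith)]; linarith
  · rw [hR.r3 _ (by linarith) (by linarith), hU.p10 _ (by linarith)]; linarith
  · rw [hR.r3 _ (by linarith) (by linarith), hU.p8 _ (by linarith) (by linarith)]; linarith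

theorem fq1 (hZ : Z f o j) : f (o + 47 * j / 2) = R (o + 47 * j / 2) := by
  have h := gB1 hU hR hZ.1 rfl (t := o + 47 * j / 2) (by linarith) le_rfl
  rw [hZ.2 _ (by rcases hZ.1 with h | h | h <;> linarith)
    (by rcases hZ.1 with h | h | h <;> linarith), ← ap_inv R (_ + j), h]
  simp

theorem fq2 (hZ : Z f o j) : f (o + (219 - 49 * j / 2)) = R (o + (219 - 49 * j / 2)) := by
  have h := gB0 hU hR hZ.1 rfl (t := o + (219 - 49 * j / 2)) le_rfl (by linarith)
  rw [hZ.2 _ (by rcases hZ.1 with h | h | h <;> linarith)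
    (by rcases hZ.1 with h | h | h <;> linarith), ← ap_inv R (_ + j), h]
  simp

theorem locC (hZ : Z f o j) : LocC U f R (o + 47 * j / 2) (o + (219 - 49 * j / 2)) := by
  obtain ⟨hj, hf⟩ := hZ
  rcases hj with rfl | rfl | rfl
  · refine fixC hU f R _ _ (o + 50) 2 (Or.inl rfl) (by linarith) (by linarith)
      (fun t e1 e2 => ?_) (fun t e1 e2 => inv_eq ?_) (fun t e1 e2 => inv_eq ?_)
      (fun t e1 e2 => ?_) (fun t e1 e2 => hf t (by linarith) (by linarith))
    · rw [hf t (by linarith) (by linarith)]; exact sC hU hR (Or.inl rfl) e1 e2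
    · rw [hf _ (by linarith) (by linarith), hR.r1 _ (by linarith) (by linarith),
        hU.p3 _ (by linarith) (by linarith)]; ring
    · rw [hf _ (by linarith) (by linarith), hR.r1 _ (by linarith) (by linarith),
        hU.p8 _ (by linarith) (by linarith)]; ring
    · rw [hR.r1 _ (by linarith) (by linarith), hU.p4 _ (by linarith) (by linarith)]; ring
  · refine ⟨1, o, o, Supp.one _ _, by linarith, by rw [hf _ (by linarith) (by linarith)]; linarith,
      by linarith, by rw [hf _ (by linarith) (by linarith)]; linarith, tr o, by simp,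
      by simp [add_comm], fun t e1 e2 => ?_⟩
    have d1 := mono U e1
    have d2 := mono U e2
    rw [hU.z0] at d1
    rw [hU.z1] at d2
    simp only [mul_inv_rev, inv_inv, mul_ap, tr_ap, inv_one, one_ap]
    symm
    apply inv_eq
    rw [hf _ (by linarith) (by linarith), hR.r1 _ (by linarith) (by linarith),
      add_sub_cancel_right]; ring
  · refine fixC hU f R _ _ (o + 222) (-2) (Or.inr rfl) (by linarith) (by linarith)
      (fun t e1 e2 => ?_) (fun t e1 e2 => inv_eq ?_) (fun t e1 e2 => inv_eq ?_)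
      (fun t e1 e2 => ?_) (fun t e1 e2 => hf t (by linarith) (by linarith))
    · rw [hf t (by linarith) (by linarith)]; exact sC hU hR (Or.inr rfl) e1 e2
    · rw [hf _ (by linarith) (by linarith), ← ap_inv R (_ + -2),
        hR.r3 _ (by linarith) (by linarith), hU.p8 _ (by linarith) (by linarith)]
      congr 1; ring
    · rw [hf _ (by linarith) (by linarith), ← ap_inv R (_ + -2),
        hR.r2 _ (by linarith) (by linarith), hU.p3 _ (by linarith) (by linarith)]
      congr 1; ring
    · rw [← ap_inv R (t + -2 + 1), hR.r2 _ (by linarith) (by linarith),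
        hU.p2 _ (by linarith) (by linarith)]
      congr 1; ring

theorem locB {j' : ℝ} (hR' : RF U R (o + 438)) (hZ : Z f o j) (hZ' : Z f (o + 438) j')
    (h0 : j = 0 → j' = 0 → ∀ t, o - 104 ≤ t → t ≤ o + 438 + 329 → f t = t) :
    LocB U f R (o + (219 - 49 * j / 2)) (o + 438 + 47 * j' / 2) := by
  obtain ⟨hj, hf⟩ := hZ
  obtain ⟨hj', hf'⟩ := hZ'
  have b1 : -2 ≤ j ∧ j ≤ 2 := by rcases hj with h | h | h <;> constructor <;> linarith
  have b2 : -2 ≤ j' ∧ j' ≤ 2 := by rcases hj' with h | h | h <;> constructor <;> linarith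
  have up : ∀ t, o + (219 - 49 * j / 2) < t → t < o + 438 + 47 * j' / 2 → R t < f t := by
    intro t e1 e2
    rcases le_total t (o + 329) with h | h
    · rw [hf t (by linarith) h]; exact sB1 hU hR hj e1 h
    rcases le_total t (o + 334) with h' | h'
    · have d1 := mono f h
      rw [hf _ (by linarith) le_rfl] at d1
      have d2 : R t ≤ o + 643 / 2 := by
        rw [← le_inv, hR.r2 _ (by linarith) (by linarith), hU.p5 _ (by linarith) (by linarith)]
        linarith
      linarith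
    · rw [hf' t (by linarith) (by linarith)]; exact sB2 hU hR' hj' (by linarith) e2
  have g0 : ∀ t, o + (219 - 49 * j / 2) ≤ t → t ≤ o + (219 - 49 * j / 2) + 1 →
      R⁻¹ (f t) = o + (219 - 49 * j / 2) + 2 * (t - (o + (219 - 49 * j / 2))) := fun t e1 e2 => by
    rw [hf t (by linarith) (by linarith)]; exact gB0 hU hR hj rfl e1 e2
  have g1 : ∀ t, o + 438 + 47 * j' / 2 - 1 ≤ t → t ≤ o + 438 + 47 * j' / 2 →
      R⁻¹ (f t) = o + 438 + 47 * j' / 2 + (t - (o + 438 + 47 * j' / 2)) / 2 := fun t e1 e2 => by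
    rw [hf' t (by linarith) (by linarith)]; exact gB1 hU hR' hj' rfl e1 e2
  rcases hj with rfl | rfl | rfl
  · refine fixB hU f R _ _ (o + 172) 2 (Or.inl rfl) (by linarith) (by linarith) up g0 g1
      (fun t e1 e2 => hf t (by linarith) (by linarith)) (fun t e1 e2 => inv_eq ?_)
    rw [hR.r1 _ (by linarith) (by linarith), hU.p9 _ (by linarith) (by linarith)]; ring
  · rcases hj' with rfl | rfl | rfl
    · refine fixB hU f R _ _ (o + 440) 2 (Or.inl rfl) (by linarith) (by linarith) up g0 g1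
        (fun t e1 e2 => hf' t (by linarith) (by linarith)) (fun t e1 e2 => inv_eq ?_)
      rw [hR'.r1 _ (by linarith) (by linarith), hU.p2 _ (by linarith) (by linarith)]; ring
    · have h1 := h0 rfl rfl
      refine ⟨1, o + 219, o + 219, Supp.one _ _, by linarith,
        by rw [h1 _ (by linarith) (by linarith)]; linarith,
        by linarith, by rw [h1 _ (by linarith) (by linarith)]; linarith, tr (o + 219), by simp,
        by simp; ring, fun t e1 e2 => ?_⟩
      simp only [mul_ap, tr_ap, inv_one, one_ap]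
      rw [h1 _ (by linarith) (by linarith), hR.r2 _ (by linarith) (by linarith),
        show t + (o + 219) - o - 219 = t by ring]; ring
    · refine fixB hU f R _ _ (o + 346) (-2) (Or.inr rfl) (by linarith) (by linarith) up g0 g1
        (fun t e1 e2 => hf' t (by linarith) (by linarith)) (fun t e1 e2 => ?_)
      rw [hR.r2 _ (by linarith) (by linarith), hU.p7 _ (by linarith) (by linarith)]; ring
  · refine fixB hU f R _ _ (o + 271) (-2) (Or.inr rfl) (by linarith) (by linarith) up g0 g1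
      (fun t e1 e2 => hf t (by linarith) (by linarith)) (fun t e1 e2 => ?_)
    rw [hR.r2 _ (by linarith) (by linarith), hU.p4 _ (by linarith) (by linarith)]; ring

end

end Pool.Agent.H.MP_701b78_al
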