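import Pool.Agent.H.MP_701b78_al.E

open Filter Topology Set

namespace Pool.Agent.H.MP_701b78_al

theorem chart_pair {U ρ W W' : G} (h0 : U 0 = 0) (h1 : U 219 = 219)
    (hW : ∀ t, 0 ≤ t → t ≤ 219 → W (U t) = ρ (W t))
    (hW' : ∀ t, 0 ≤ t → t ≤ 219 → W' (U t) = ρ⁻¹ (W' t)) (t : ℝ) (e1 : W 0 ≤ t) (e2 : t ≤ W 219) :
    (W 0 ≤ ρ t ∧ ρ t ≤ W 219 ∧ (W' * W⁻¹) (ρ t) = ρ⁻¹ ((W' * W⁻¹) t)) ∧
    (W 0 ≤ ρ⁻¹ t ∧ ρ⁻¹ t ≤ W 219 ∧ (W' * W⁻¹) (ρ⁻¹ t) = ρ ((W' * W⁻¹) t)) := by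
  obtain ⟨s, rfl⟩ : ∃ s, W s = t := ⟨_, ap_inv W t⟩
  rw [ap_le] at e1 e2
  have a1 := mono U e1
  have a2 := mono U e2
  have a3 := mono U⁻¹ e1
  have a4 := mono U⁻¹ e2
  rw [h0] at a1
  rw [h1] at a2
  rw [inv_eq h0] at a3
  rw [inv_eq h1] at a4
  have b1 := hW _ a3 a4
  have b2 := hW' _ a3 a4
  rw [ap_inv] at b1 b2
  rw [← hW s e1 e2, inv_eq b1.symm]
  simp only [ap_le, mul_ap, inv_ap]
  exact ⟨⟨a1, a2, hW' s e1 e2⟩, a3, a4, by rw [b2, ap_inv]⟩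

theorem rev_crit {U : G} (h0 : U 0 = 0) (h1 : U 219 = 219) (r : G) (q : ℤ → ℝ)
    (hq : StrictMono q) (hu : Unb q) (he : ∀ i, Std U r⁻¹ (q (2 * i)) (q (2 * i + 1)))
    (ho : ∀ i, Std U r (q (2 * i + 1)) (q (2 * i + 1 + 1))) : ∃ h : G, h * r * h⁻¹ = r⁻¹ := by
  let ρ : ℤ → G := fun n => if Even n then r⁻¹ else r
  have hρ : ∀ n, ρ (n + 1) = (ρ n)⁻¹ := fun n => by
    by_cases h : Even n <;> simp [ρ, Int.even_add_one, h]
  have hS : ∀ n, Std U (ρ n) (q n) (q (n + 1)) := fun n => by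
    obtain ⟨i, rfl | rfl⟩ := Int.even_or_odd' n
    · simpa [ρ] using he i
    · have : ρ (2 * i + 1) = r := if_neg (by simp)
      rw [this]; exact ho i
  choose W W0 W1 W2 using hS
  obtain ⟨h, hh⟩ := zglue q (fun n => W (n + 1) * (W n)⁻¹) hq hu
    (fun n => by rw [mul_ap, mul_ap, inv_eq (W1 n), inv_eq (W0 (n + 1)), W1, W0])
    (fun x => by
      obtain ⟨⟨i, hi⟩, ⟨k, hk⟩⟩ := hu x
      exact ⟨⟨i - 1, by simp only [mul_ap]; rw [inv_eq (W0 _), W0]; simpa using hi⟩,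
        ⟨k - 1, by simp only [mul_ap]; rw [inv_eq (W0 _), W0]; simpa using hk⟩⟩)
  refine ⟨h, ?_⟩
  rw [mul_inv_eq_iff_eq_mul]
  apply ext
  intro t
  obtain ⟨n, e1, e2⟩ := idxR hq hu t
  have key := chart_pair h0 h1 (W2 n) (hρ n ▸ W2 (n + 1)) t (by rwa [W0]) (by rw [W1]; exact e2.le)
  rw [W0, W1] at key
  rw [mul_ap, mul_ap, hh n t e1 e2.le]
  by_cases hn : Even n
  · have : ρ n = r⁻¹ := if_pos hn
    rw [this, inv_inv] at key
    rw [hh n _ key.2.1 key.2.2.1, key.2.2.2]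
  · have : ρ n = r := if_neg hn
    rw [this] at key
    rw [hh n _ key.1.1 key.1.2.1, key.1.2.2]

theorem Std.congr {U r r' : G} {q q' : ℝ} (h : Std U r q q')
    (e : ∀ t, q ≤ t → t ≤ q' → r' t = r t) : Std U r' q q' := by
  obtain ⟨W, a, b, c⟩ := h
  exact ⟨W, a, b, fun t e1 e2 => by rw [c t e1 e2, e _ (a ▸ mono W e1) (b ▸ mono W e2)]⟩

theorem interleave (A B : ℤ → ℝ) (h1 : ∀ i, A i < B i) (h2 : ∀ i, B i < A (i + 1)) (hu : Unb A) :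
    ∃ q : ℤ → ℝ, StrictMono q ∧ Unb q ∧ (∀ i, q (2 * i) = A i) ∧ (∀ i, q (2 * i + 1) = B i) ∧
      ∀ i, q (2 * i + 1 + 1) = A (i + 1) := by
  let q : ℤ → ℝ := fun n => if Even n then A (n / 2) else B (n / 2)
  have a : ∀ i, q (2 * i) = A i := fun i => by simp [q]
  have b : ∀ i, q (2 * i + 1) = B i := fun i => by
    have : (2 * i + 1) / 2 = i := by omega
    simp [q, this]
  have c : ∀ i, q (2 * i + 1 + 1) = A (i + 1) := fun i => by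
    rw [← a]; congr 1; ring
  refine ⟨q, strictMono_int_of_lt_succ fun n => ?_, fun x => ?_, a, b, c⟩
  · obtain ⟨i, rfl | rfl⟩ := Int.even_or_odd' n
    · rw [a, b]; exact h1 i
    · rw [b, c]; exact h2 i
  · obtain ⟨⟨i, hi⟩, ⟨k, hk⟩⟩ := hu x
    exact ⟨⟨2 * i, by rwa [a]⟩, ⟨2 * k, by rwa [a]⟩⟩

theorem assembly {U : G} (h0 : U 0 = 0) (h1 : U 219 = 219) (f R : G) (q : ℤ → ℝ)
    (hq : StrictMono q) (hu : Unb q) (hf : ∀ n, f (q n) = R (q n))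
    (he : ∀ i, LocC U f R (q (2 * i)) (q (2 * i + 1)))
    (ho : ∀ i, LocB U f R (q (2 * i + 1)) (q (2 * i + 1 + 1))) :
    ∃ u h : G, h * (u * R⁻¹ * u⁻¹ * f) * h⁻¹ = (u * R⁻¹ * u⁻¹ * f)⁻¹ := by
  have hL : ∀ n, ∃ (u : G) (a b : ℝ), Supp a b u ∧ q n ≤ a ∧ f (q n) ≤ a ∧ b ≤ q (n + 1) ∧
      b ≤ f (q (n + 1)) ∧ (Even n → Std U (u * R⁻¹ * u⁻¹ * f)⁻¹ (q n) (q (n + 1))) ∧
      (¬ Even n → Std U (u * R⁻¹ * u⁻¹ * f) (q n) (q (n + 1))) := fun n => by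
    obtain ⟨i, rfl | rfl⟩ := Int.even_or_odd' n
    · obtain ⟨u, a, b, c1, c2, c3, c4, c5, c6⟩ := he i
      exact ⟨u, a, b, c1, c2, c3, c4, c5, fun _ => c6, fun h => absurd (by simp) h⟩
    · obtain ⟨u, a, b, c1, c2, c3, c4, c5, c6⟩ := ho i
      exact ⟨u, a, b, c1, c2, c3, c4, c5, fun h => absurd h (by simp), fun _ => c6⟩
  choose v a b c1 c2 c3 c4 c5 c6 c7 using hL
  have v0 : ∀ n, v n (q n) = q n := fun n => c1 n _ (Or.inl (c2 n))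
  have v1 : ∀ n, v n (q (n + 1)) = q (n + 1) := fun n => c1 n _ (Or.inr (c4 n))
  obtain ⟨u, hu1⟩ := zglue q v hq hu (fun n => by rw [v0, v1]) (by simpa only [v0] using hu)
  have hu2 : ∀ n x, f (q n) ≤ x → x ≤ f (q (n + 1)) → u x = v n x := by
    intro n x e1 e2
    obtain ⟨m, d1, d2⟩ := idxR hq hu x
    rw [hu1 m x d1 d2.le]
    rcases lt_trichotomy m n with h | rfl | h
    · have k1 := hq.monotone (show m + 1 ≤ n by omega)
      have k2 := mono f k1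
      rw [c1 m x (Or.inr (by linarith [c5 m])), c1 n x (Or.inl (by linarith [c2 n]))]
    · rfl
    · have k1 := hq.monotone (show n + 1 ≤ m by omega)
      have k2 := mono f k1
      rw [c1 m x (Or.inl (by linarith [c3 m])), c1 n x (Or.inr (by linarith [c4 n]))]
  have hu3 : ∀ n t, q n ≤ t → t ≤ q (n + 1) →
      (u * R⁻¹ * u⁻¹ * f) t = (v n * R⁻¹ * (v n)⁻¹ * f) t := by
    intro n t e1 e2
    have d1 := mono (v n)⁻¹ (mono f e1)
    have d2 := mono (v n)⁻¹ (mono f e2)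
    rw [(c1 n).inv _ (Or.inl (c3 n))] at d1
    rw [(c1 n).inv _ (Or.inr (c5 n))] at d2
    have d3 : u⁻¹ (f t) = (v n)⁻¹ (f t) := inv_eq (by rw [hu2 n _ d1 d2, ap_inv])
    simp only [mul_ap]
    rw [d3, hu1 n _ (le_inv.2 (hf n ▸ d1)) (inv_le.2 (hf (n + 1) ▸ d2))]
  have hu4 : ∀ n t, q n ≤ t → t ≤ q (n + 1) →
      (u * R⁻¹ * u⁻¹ * f)⁻¹ t = (v n * R⁻¹ * (v n)⁻¹ * f)⁻¹ t := by
    intro n t e1 e2
    have d1 : (v n * R⁻¹ * (v n)⁻¹ * f) (q n) = q n := by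
      simp only [mul_ap]
      rw [(c1 n).inv _ (Or.inl (c3 n)), hf, inv_ap, v0]
    have d2 : (v n * R⁻¹ * (v n)⁻¹ * f) (q (n + 1)) = q (n + 1) := by
      simp only [mul_ap]
      rw [(c1 n).inv _ (Or.inr (c5 n)), hf, inv_ap, v1]
    apply inv_eq
    rw [hu3 n _ (le_inv.2 (by rwa [d1])) (inv_le.2 (by rwa [d2])), ap_inv]
  obtain ⟨h, hh⟩ := rev_crit h0 h1 (u * R⁻¹ * u⁻¹ * f) q hq hu
    (fun i => (c6 _ (by simp)).congr (hu4 _)) (fun i => (c7 _ (by simp)).congr (hu3 _))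
  exact ⟨u, h, hh⟩

theorem exists_R {U : G} (hU : UF U) :
    ∃ R h : G, h * R * h⁻¹ = R⁻¹ ∧ ∀ i : ℤ, RF U R (438 * i) := by
  have hm := lin_mono 219 0 (by norm_num)
  have hu := lin_unb 219 0 (by norm_num)
  let ρ : ℤ → G := fun n => if Even n then U else U⁻¹
  have ρ0 : ∀ n, ρ n 0 = 0 := fun n => by
    simp only [ρ]; split_ifs; exacts [hU.z0, inv_eq hU.z0]
  have ρ1 : ∀ n, ρ n 219 = 219 := fun n => by
    simp only [ρ]; split_ifs; exacts [hU.z1, inv_eq hU.z1]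
  obtain ⟨R, hR⟩ := zglue (fun i : ℤ => 219 * (i : ℝ) + 0)
    (fun i => tr (219 * i) * ρ i * (tr (219 * i))⁻¹) hm hu
    (fun i => by
      simp only [mul_ap, tr_ap, tr_inv_ap]
      push_cast
      rw [show 219 * ((i : ℝ) + 1) + 0 - 219 * i = 219 by ring,
        show 219 * ((i : ℝ) + 1) + 0 - 219 * (i + 1) = 0 by ring, ρ0, ρ1]; ring)
    (by simpa [ρ0] using hu)
  simp only [mul_ap, tr_ap, tr_inv_ap, add_zero] at hR
  have a1 : ∀ (i : ℤ) (t : ℝ), 438 * i ≤ t → t ≤ 438 * i + 219 → R t = 438 * i + U (t - 438 * i) := by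
    intro i t e1 e2
    rw [hR (2 * i) t (by push_cast; linarith) (by push_cast; linarith)]
    simp only [ρ, even_two_mul, if_true]
    push_cast
    rw [show (219 : ℝ) * (2 * i) = 438 * i by ring]; ring
  have a2 : ∀ (i : ℤ) (t : ℝ), 438 * i + 219 ≤ t → t ≤ 438 * i + 438 →
      R⁻¹ t = 438 * i + 219 + U (t - 438 * i - 219) := by
    intro i t e1 e2
    have d1 := mono U (show 0 ≤ t - 438 * i - 219 by linarith)
    have d2 := mono U (show t - 438 * i - 219 ≤ 219 by linarith)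
    rw [hU.z0] at d1
    rw [hU.z1] at d2
    apply inv_eq
    rw [hR (2 * i + 1) _ (by push_cast; linarith) (by push_cast; linarith)]
    have : ρ (2 * i + 1) = U⁻¹ := if_neg (by simp)
    rw [this]
    push_cast
    rw [show 438 * (i : ℝ) + 219 + U (t - 438 * i - 219) - 219 * (2 * i + 1) =
      U (t - 438 * i - 219) by ring, inv_ap]; ring
  obtain ⟨h, hh⟩ := rev_crit hU.z0 hU.z1 R⁻¹ _ hm hu
    (fun i => ⟨tr (438 * i), by simp; ring, by simp; ring, fun t e1 e2 => by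
      rw [inv_inv, tr_ap, tr_ap, a1 i _ (by linarith) (by linarith), add_sub_cancel_right]; ring⟩)
    (fun i => ⟨tr (438 * i + 219), by simp; ring, by simp; ring, fun t e1 e2 => by
      rw [tr_ap, tr_ap, a2 i _ (by linarith) (by linarith),
        show t + (438 * (i : ℝ) + 219) - 438 * i - 219 = t by ring]; ring⟩)
  refine ⟨R, h, ?_, fun i => ⟨a1 i, a2 i, fun t e1 e2 => ?_⟩⟩
  · rw [← inv_inj, ← hh]; group
  · rw [a2 (i - 1) t (by push_cast; linarith) (by push_cast; linarith)]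
    push_cast
    rw [show t - 438 * ((i : ℝ) - 1) - 219 = t - 438 * i + 219 by ring]; ring

theorem two_of_zones (f : G) (j : ℤ → ℝ) (hZ : ∀ i : ℤ, Z f (438 * i) (j i))
    (h0 : ∀ i : ℤ, j i = 0 → j (i + 1) = 0 →
      ∀ t : ℝ, 438 * i - 104 ≤ t → t ≤ 438 * i + 438 + 329 → f t = t) :
    ∃ r1 r2 h1 h2 : G, h1 * r1 * h1⁻¹ = r1⁻¹ ∧ h2 * r2 * h2⁻¹ = r2⁻¹ ∧ f = r1 * r2 := by
  obtain ⟨U, hU⟩ := exists_U
  obtain ⟨R, h, hh, hR⟩ := exists_R hU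
  have b : ∀ i, -2 ≤ j i ∧ j i ≤ 2 := fun i => by
    rcases (hZ i).1 with h | h | h <;> constructor <;> linarith
  obtain ⟨q, q1, q2, q3, q4, q5⟩ := interleave (fun i => 438 * i + 47 * j i / 2)
    (fun i => 438 * i + (219 - 49 * j i / 2)) (fun i => by linarith [b i])
    (fun i => by push_cast; linarith [b i, b (i + 1)]) (fun x => by
      obtain ⟨⟨i, hi⟩, -⟩ := lin_unb 438 (-47) (by norm_num) x
      obtain ⟨-, ⟨k, hk⟩⟩ := lin_unb 438 47 (by norm_num) x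
      exact ⟨⟨i, by simp only at hi ⊢; linarith [b i]⟩, ⟨k, by simp only at hk ⊢; linarith [b k]⟩⟩)
  have c : ∀ i : ℤ, (438 : ℝ) * ((i + 1 : ℤ) : ℝ) = 438 * i + 438 := fun i => by push_cast; ring
  obtain ⟨u, h2, hh2⟩ := assembly hU.z0 hU.z1 f R q q1 q2 (fun n => by
      obtain ⟨i, rfl | rfl⟩ := Int.even_or_odd' n
      · rw [q3]; exact fq1 hU (hR i) (hZ i)
      · rw [q4]; exact fq2 hU (hR i) (hZ i))
    (fun i => by rw [q3, q4]; exact locC hU (hR i) (hZ i))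
    (fun i => by
      rw [q4, q5, c]
      exact locB hU (hR i) (c i ▸ hR (i + 1)) (hZ i) (c i ▸ hZ (i + 1)) (h0 i))
  refine ⟨u * R * u⁻¹, _, u * h * u⁻¹, h2, ?_, hh2, by group⟩
  calc _ = u * (h * R * h⁻¹) * u⁻¹ := by group
    _ = _ := by rw [hh]; group

end Pool.Agent.H.MP_701b78_al
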