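import Pool.Agent.H.MP_701b78_al.F

open Filter Topology Set

namespace Pool.Agent.H.MP_701b78_al

theorem seqZ {S : Type*} (α β : S → ℝ) (PR PL : S → Prop) (s0 : S)
    (hR : ∀ M, ∃ s, PR s ∧ M < α s) (hL : ∀ M, ∃ s, PL s ∧ β s < M) :
    ∃ σ : ℤ → S, σ 0 = s0 ∧ (∀ i, β (σ i) < α (σ (i + 1))) ∧
      (∀ i, 0 < i → PR (σ i) ∧ (i : ℝ) ≤ α (σ i)) ∧ ∀ i, i < 0 → PL (σ i) ∧ β (σ i) ≤ i := by
  choose fR R1 R2 using hR
  choose fL L1 L2 using hL
  let ρ : ℕ → S := fun n => Nat.rec s0 (fun k s => fR (max (β s) (k + 1))) n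
  let l : ℕ → S := fun n => Nat.rec s0 (fun k s => fL (min (α s) (-(k + 1)))) n
  have ρ1 : ∀ n, ρ (n + 1) = fR (max (β (ρ n)) (n + 1)) := fun _ => rfl
  have l1 : ∀ n, l (n + 1) = fL (min (α (l n)) (-(n + 1))) := fun _ => rfl
  let σ : ℤ → S := fun i => if 0 ≤ i then ρ i.toNat else l (-i).toNat
  have σ1 : ∀ n : ℕ, σ n = ρ n := fun n => by simp [σ]
  have σ2 : ∀ n : ℕ, σ (-(n : ℤ)) = l n := fun n => by
    rcases n with _ | n
    · rfl
    · have : ¬ (0 : ℤ) ≤ -((n + 1 : ℕ) : ℤ) := by omega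
      simp only [σ, if_neg this, neg_neg, Int.toNat_natCast]
  refine ⟨σ, rfl, fun i => ?_, fun i hi => ?_, fun i hi => ?_⟩
  · rcases le_or_gt 0 i with h | h
    · obtain ⟨n, rfl⟩ := Int.eq_ofNat_of_zero_le h
      rw [show (n : ℤ) + 1 = (n + 1 : ℕ) by simp, σ1, σ1, ρ1]
      exact lt_of_le_of_lt (le_max_left _ _) (R2 _)
    · obtain ⟨n, rfl⟩ : ∃ n : ℕ, i = -((n + 1 : ℕ) : ℤ) := ⟨(-i - 1).toNat, by omega⟩
      rw [show -((n + 1 : ℕ) : ℤ) + 1 = -(n : ℤ) by simp, σ2, σ2, l1]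
      exact lt_of_lt_of_le (L2 _) (min_le_left _ _)
  · obtain ⟨n, rfl⟩ : ∃ n : ℕ, i = ((n + 1 : ℕ) : ℤ) := ⟨(i - 1).toNat, by omega⟩
    rw [σ1, ρ1]
    refine ⟨R1 _, le_trans ?_ (le_trans (le_max_right _ _) (R2 _).le)⟩
    simp
  · obtain ⟨n, rfl⟩ : ∃ n : ℕ, i = -((n + 1 : ℕ) : ℤ) := ⟨(-i - 1).toNat, by omega⟩
    rw [σ2, l1]
    refine ⟨L1 _, le_trans (le_trans (L2 _).le (min_le_right _ _)) ?_⟩
    simp

theorem tr_pow (c t : ℝ) (n : ℕ) : (tr c ^ n) t = t + n * c := by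
  induction n with
  | zero => simp
  | succ n ih => rw [pow_succ', mul_ap, ih, tr_ap]; push_cast; ring

def Good (f : G) (s : ℝ × G) : Prop :=
  (s.1 = 2 ∨ s.1 = 0 ∨ s.1 = -2) ∧ ∀ t, -104 ≤ t → t ≤ 329 → f (s.2 t) = s.2 (t + s.1)

theorem slot (f g : G) (hg : g = f ∨ g = f⁻¹) (x : ℝ) (hx : x < g x) :
    ∃ s, s.1 ≠ 0 ∧ Good f s ∧ s.2 (-106) = x ∧ s.2 332 = (g ^ 219) x := by
  obtain ⟨w0, -, -, -, a1, a2⟩ := exists_interp (show (-106 : ℝ) < -104 by norm_num) hx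
  obtain ⟨w, -, b1, b2, b3⟩ := extF (tr 2) g w0 (-106) (-106) le_rfl (by simp) (fun t e1 e2 => by
    rw [le_antisymm e2 e1, a1, ← a2, tr_ap]; norm_num) 219
  rw [tr_pow, show (-106 : ℝ) + ((219 : ℕ) : ℝ) * 2 = 332 by norm_num] at b1 b3
  simp only [tr_ap] at b1 b2
  have b4 : w (-106) = x := by rw [b2 _ (by norm_num), a1]
  rw [a1] at b3
  rcases hg with rfl | rfl
  · exact ⟨(2, w), by norm_num, ⟨.inl rfl, fun t e1 e2 =>
      (b1 t (by linarith) (by linarith)).symm⟩, b4, b3⟩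
  · refine ⟨(-2, w), by norm_num, ⟨.inr (.inr rfl), fun t e1 e2 => ?_⟩, b4, b3⟩
    have := b1 (t + -2) (by linarith) (by linarith)
    rw [show t + -2 + 2 = t by ring] at this
    simp only
    rw [this, ap_inv]

theorem updown (f : G) (x : ℝ) (hx : f x ≠ x) : ∃ g : G, (g = f ∨ g = f⁻¹) ∧ x < g x := by
  rcases lt_or_gt_of_ne hx with h | h
  · exact ⟨f⁻¹, .inr rfl, lt_inv.2 h⟩
  · exact ⟨f, .inl rfl, h⟩

theorem normal (f : G) (hf : f ≠ 1) : ∃ (W : G) (j : ℤ → ℝ),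
    (∀ i : ℤ, Z (W⁻¹ * f * W) (438 * i) (j i)) ∧ ∀ i : ℤ, j i = 0 → j (i + 1) = 0 →
      ∀ t : ℝ, 438 * i - 104 ≤ t → t ≤ 438 * i + 438 + 329 → (W⁻¹ * f * W) t = t := by
  obtain ⟨x0, hx0⟩ : ∃ x, f x ≠ x := by
    by_contra h
    push Not at h
    exact hf (ext h)
  obtain ⟨g0, hg0, hx0'⟩ := updown f x0 hx0
  obtain ⟨s0, s01, s02, -⟩ := slot f g0 hg0 x0 hx0'
  obtain ⟨σ, σ0, σ1, σ2, σ3⟩ := seqZ (fun s : ℝ × G => s.2 (-106)) (fun s => s.2 331)
    (fun s => Good f s ∧ (s.1 = 0 → ∀ t, s.2 (-106) ≤ t → f t = t))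
    (fun s => Good f s ∧ (s.1 = 0 → ∀ t, t ≤ s.2 331 → f t = t)) s0
    (fun M => by
      by_cases h : ∃ x, M < x ∧ f x ≠ x
      · obtain ⟨x, h1, h2⟩ := h
        obtain ⟨g, hg, hx⟩ := updown f x h2
        obtain ⟨s, a1, a2, a3, -⟩ := slot f g hg x hx
        exact ⟨s, ⟨a2, fun h => absurd h a1⟩, by simpa only [a3] using h1⟩
      · push Not at h
        refine ⟨(0, tr (M + 107)), ⟨⟨.inr (.inl rfl), fun t e1 e2 => ?_⟩, fun _ t ht => ?_⟩, ?_⟩
        · simp only [tr_ap, add_zero]; exact h _ (by linarith)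
        · simp only [tr_ap] at ht; exact h _ (by linarith)
        · simp only [tr_ap]; linarith)
    (fun M => by
      by_cases h : ∃ x, x < M ∧ f x ≠ x
      · obtain ⟨x, h1, h2⟩ := h
        obtain ⟨g, hg, hx⟩ := updown f x h2
        obtain ⟨s, a1, a2, -, a4⟩ := slot f g hg ((g ^ 219)⁻¹ x) (by
          have e : g * (g ^ 219)⁻¹ = (g ^ 219)⁻¹ * g := by group
          rw [← mul_ap, e, mul_ap]; exact smono _ hx)
        rw [ap_inv] at a4
        refine ⟨s, ⟨a2, fun h => absurd h a1⟩, ?_⟩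
        have := smono s.2 (show (331 : ℝ) < 332 by norm_num)
        linarith
      · push Not at h
        refine ⟨(0, tr (M - 332)), ⟨⟨.inr (.inl rfl), fun t e1 e2 => ?_⟩, fun _ t ht => ?_⟩, ?_⟩
        · simp only [tr_ap, add_zero]; exact h _ (by linarith)
        · simp only [tr_ap] at ht; exact h _ (by linarith)
        · simp only [tr_ap]; linarith)
  have hG : ∀ i, Good f (σ i) := fun i => by
    rcases lt_trichotomy i 0 with h | rfl | h
    · exact (σ3 i h).1.1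
    · rwa [σ0]
    · exact (σ2 i h).1.1
  have hV : ∀ i : ℤ, ∃ V : G, (∀ t : ℝ, t ≤ 438 * i + 331 → V t = (σ i).2 (t - 438 * i)) ∧
      V (438 * i + 332) = (σ (i + 1)).2 (-106) := fun i => by
    obtain ⟨l, -, -, -, l1, l2⟩ := exists_interp
      (show 438 * (i : ℝ) + 331 < 438 * i + 332 by linarith) (σ1 i)
    obtain ⟨V, V1, V2⟩ := glue ((σ i).2 * (tr (438 * i))⁻¹) l (438 * i + 331) (by simp [l1])
    exact ⟨V, fun t ht => by simp [V1 t ht], by rw [V2 _ (by linarith), l2]⟩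
  choose V V1 V2 using hV
  have V3 : ∀ i : ℤ, V i (438 * i + -106) = (σ i).2 (-106) := fun i => by
    rw [V1 i _ (by linarith)]; congr 1; ring
  have hlt : ∀ i, (σ i).2 (-106) < (σ i).2 331 := fun i => smono _ (by norm_num)
  obtain ⟨W, hW⟩ := zglue (fun i : ℤ => 438 * (i : ℝ) + -106) V (lin_mono _ _ (by norm_num))
    (lin_unb _ _ (by norm_num)) (fun i => by
      rw [V3, ← V2]; congr 1; push_cast; ring) (fun x => by
      simp only [V3]
      obtain ⟨n, hn⟩ := exists_nat_gt |x|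
      have h1 := (σ2 (n + 1) (by omega)).2
      have h2 := (σ3 (-(n + 1)) (by omega)).2
      have h3 := hlt (-(n + 1))
      push_cast at h1 h2
      exact ⟨⟨n + 1, by linarith [le_abs_self x]⟩, ⟨-(n + 1), by linarith [neg_abs_le x]⟩⟩)
  have hW1 : ∀ (i : ℤ) (t : ℝ), 438 * i - 106 ≤ t → t ≤ 438 * i + 331 →
      W t = (σ i).2 (t - 438 * i) := fun i t e1 e2 => by
    rw [hW i t (by linarith) (by push_cast; linarith), V1 i t e2]
  refine ⟨W, fun i => (σ i).1, fun i => ⟨(hG i).1, fun t e1 e2 => ?_⟩, fun i a1 a2 t e1 e2 => ?_⟩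
  · have b : -2 ≤ (σ i).1 ∧ (σ i).1 ≤ 2 := by
      rcases (hG i).1 with h | h | h <;> constructor <;> linarith
    simp only [mul_ap]
    apply inv_eq
    rw [hW1 i t (by linarith) (by linarith), hW1 i _ (by linarith) (by linarith),
      (hG i).2 _ (by linarith) (by linarith)]
    congr 1; ring
  · simp only [mul_ap] at a1 a2 ⊢
    apply inv_eq
    symm
    rcases lt_trichotomy i 0 with h | rfl | h
    · rcases (show i + 1 ≤ 0 by omega).eq_or_lt with h' | h'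
      · rw [h', σ0] at a2; exact absurd a2 s01
      · apply (σ3 _ h').1.2 a2
        have := hW1 (i + 1) (438 * i + 438 + 331) (by push_cast; linarith) (by push_cast; linarith)
        rw [show 438 * (i : ℝ) + 438 + 331 - 438 * ((i + 1 : ℤ) : ℝ) = 331 by push_cast; ring] at this
        rw [← this]
        exact mono W (by linarith)
    · rw [σ0] at a1; exact absurd a1 s01
    · apply (σ2 _ h).1.2 a1
      have := hW1 i (438 * i - 106) le_rfl (by linarith)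
      rw [show 438 * (i : ℝ) - 106 - 438 * i = -106 by ring] at this
      rw [← this]
      exact mono W (by linarith)

theorem two_rev (f : G) :
    ∃ r1 r2 h1 h2 : G, h1 * r1 * h1⁻¹ = r1⁻¹ ∧ h2 * r2 * h2⁻¹ = r2⁻¹ ∧ f = r1 * r2 := by
  by_cases hf : f = 1
  · exact ⟨1, 1, 1, 1, by simp, by simp, by simp [hf]⟩
  obtain ⟨W, j, h1, h2⟩ := normal f hf
  obtain ⟨r1, r2, k1, k2, e1, e2, e3⟩ := two_of_zones _ j h1 h2
  refine ⟨W * r1 * W⁻¹, W * r2 * W⁻¹, W * k1 * W⁻¹, W * k2 * W⁻¹, ?_, ?_, ?_⟩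
  · calc _ = W * (k1 * r1 * k1⁻¹) * W⁻¹ := by group
      _ = _ := by rw [e1]; group
  · calc _ = W * (k2 * r2 * k2⁻¹) * W⁻¹ := by group
      _ = _ := by rw [e2]; group
  · calc f = W * (W⁻¹ * f * W) * W⁻¹ := by group
      _ = _ := by rw [e3]; group

end Pool.Agent.H.MP_701b78_al
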