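import Pool.Agent.H.MP_701b78_al.N

open Filter Topology Set

namespace Pool.Agent.H.MP_701b78_al

def LA (f : ℝ → ℝ) (x : ℝ) : Prop :=
  ∃ u v a b : ℝ, u < x ∧ x < v ∧ ∀ t ∈ Set.Ioo u v, f t = a * t + b

theorem aff_uniq {x a b a' b' : ℝ} (h : ∀ᶠ t in 𝓝 x, a * t + b = a' * t + b') :
    a = a' ∧ b = b' := by
  obtain ⟨l, u, ⟨h1, h2⟩, h3⟩ := mem_nhds_iff_exists_Ioo_subset.1 h
  have e1 : a * x + b = a' * x + b' := h3 ⟨h1, h2⟩
  have e2 : a * ((x + u) / 2) + b = a' * ((x + u) / 2) + b' := h3 ⟨by linarith, by linarith⟩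
  have e3 : (a - a') * (u - x) = 0 := by linarith
  have e4 : a = a' := by
    rcases mul_eq_zero.1 e3 with h | h <;> linarith
  subst e4
  exact ⟨rfl, by linarith⟩

theorem aff_of_LA {f : ℝ → ℝ} (hf : Continuous f) {p q : ℝ} (hpq : p < q)
    (h : ∀ y ∈ Ioo p q, LA f y) : ∃ a b, ∀ t ∈ Icc p q, f t = a * t + b := by
  have hy : (p + q) / 2 ∈ Ioo p q := ⟨by linarith, by linarith⟩
  obtain ⟨u, v, a, b, h1, h2, h3⟩ := h _ hy
  refine ⟨a, b, ?_⟩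
  have key : EqOn f (fun t => a * t + b) (Ioo p q) := by
    intro y hy'
    have := (isPreconnected_Ioo (a := p) (b := q)).induction₂'
      (fun x y => ∀ a b, (∀ᶠ t in 𝓝 x, f t = a * t + b) → ∀ᶠ t in 𝓝 y, f t = a * t + b)
      (fun x hx => by
        obtain ⟨u, v, a0, b0, h1, h2, h3⟩ := h x hx
        have e : ∀ y ∈ Ioo u v, ∀ᶠ t in 𝓝 y, f t = a0 * t + b0 := fun y hy =>
          mem_of_superset (Ioo_mem_nhds hy.1 hy.2) h3
        have e' : ∀ y ∈ Ioo u v, ∀ z ∈ Ioo u v, ∀ a b, (∀ᶠ t in 𝓝 y, f t = a * t + b) →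
            ∀ᶠ t in 𝓝 z, f t = a * t + b := fun y hy z hz a b hh => by
          obtain ⟨rfl, rfl⟩ := aff_uniq (a := a) (b := b) (a' := a0) (b' := b0) (x := y) (by
            filter_upwards [hh, e y hy] with t e1 e2
            rw [← e1, e2])
          exact e z hz
        filter_upwards [mem_nhdsWithin_of_mem_nhds (Ioo_mem_nhds h1 h2)] with y hy
        exact ⟨e' x ⟨h1, h2⟩ y hy, e' y hy x ⟨h1, h2⟩⟩)
      (fun x y z _ _ _ h1 h2 a b h => h2 a b (h1 a b h)) hy hy' a b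
      (mem_of_superset (Ioo_mem_nhds h1 h2) h3)
    exact this.self_of_nhds
  have := key.closure hf (by fun_prop)
  rwa [closure_Ioo hpq.ne] at this

theorem plp_of {f : ℝ → ℝ} (hf : Continuous f) (D : Set ℝ) (hD : IsDiscrete D)
    (h : ∀ x, x ∉ D → LA f x) : PLp f := by
  intro x
  obtain ⟨p, q, h1, h2, h3⟩ : ∃ p q, p < x ∧ x < q ∧ ∀ y ∈ Ioo p q, y ≠ x → LA f y := by
    by_cases hx : x ∈ D
    · obtain ⟨u, u1, u2⟩ := isDiscrete_iff_forall_mem_exists_isOpen.1 hD x hx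
      have : x ∈ u := (show x ∈ u ∩ D by rw [u2]; rfl).1
      obtain ⟨p, q, ⟨a1, a2⟩, a3⟩ := mem_nhds_iff_exists_Ioo_subset.1 (u1.mem_nhds this)
      refine ⟨p, q, a1, a2, fun y hy hne => h y fun hyD => hne ?_⟩
      have : y ∈ u ∩ D := ⟨a3 hy, hyD⟩
      rwa [u2] at this
    · obtain ⟨u, v, a, b, a1, a2, a3⟩ := h x hx
      exact ⟨u, v, a1, a2, fun y hy _ => ⟨u, v, a, b, hy.1, hy.2, a3⟩⟩
  constructor
  · obtain ⟨a, b, e⟩ := aff_of_LA hf h2 (fun y hy => h3 y ⟨by linarith [hy.1], hy.2⟩ hy.1.ne')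
    refine ⟨a, ?_⟩
    filter_upwards [Icc_mem_nhdsGE h2] with t ht
    rw [e t ht, e x ⟨le_rfl, h2.le⟩]; ring
  · obtain ⟨a, b, e⟩ := aff_of_LA hf h1 (fun y hy => h3 y ⟨hy.1, by linarith [hy.2]⟩ hy.2.ne)
    refine ⟨a, ?_⟩
    filter_upwards [Icc_mem_nhdsLE h1] with t ht
    rw [e t ht, e x ⟨h1.le, le_rfl⟩]; ring

theorem disc_of (g : G) : ∃ D : Set ℝ, IsDiscrete D ∧ ∀ x, x ∉ D → LA g x := by
  refine ⟨{x | ¬ LA g x}, isDiscrete_iff_forall_mem_exists_isOpen.2 fun y hy => ?_,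
    fun x hx => by simpa using hx⟩
  obtain ⟨q, h1, s, h2⟩ := affR g y
  obtain ⟨p, h3, h4⟩ := affL g y
  obtain ⟨s', h4⟩ := h4 p le_rfl h3.le
  refine ⟨Ioo p q, isOpen_Ioo, Set.eq_singleton_iff_unique_mem.2 ⟨⟨⟨h3, h1⟩, hy⟩, ?_⟩⟩
  rintro z ⟨⟨a1, a2⟩, a3⟩
  by_contra hne
  apply a3
  rcases lt_or_gt_of_ne hne with h | h
  · exact ⟨p, y, s', g p - s' * p, a1, h, fun t ht => by rw [h4 t ht.1.le ht.2.le]; ring⟩
  · exact ⟨y, q, s, g y - s * y, h, a2, fun t ht => by rw [h2 t ht.1.le ht.2.le]; ring⟩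

noncomputable def toH : G →* (ℝ ≃ₜ ℝ) where
  toFun g := g.1.toHomeomorph
  map_one' := by ext; rfl
  map_mul' _ _ := by ext; rfl

theorem toH_ap (g : G) (t : ℝ) : toH g t = g t := rfl

theorem mem_iff (f : ℝ ≃ₜ ℝ) :
    (StrictMono f ∧ ∃ D : Set ℝ, IsDiscrete D ∧ ∀ x, x ∉ D → LA f x) ↔ ∃ g, toH g = f := by
  constructor
  · rintro ⟨h1, D, h2, h3⟩
    obtain ⟨g, hg⟩ := mk_G f h1 f.surjective (plp_of f.continuous D h2 h3)
    exact ⟨g, Homeomorph.ext hg⟩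
  · rintro ⟨g, rfl⟩
    exact ⟨fun _ _ h => smono g h, disc_of g⟩

end Pool.Agent.H.MP_701b78_al
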